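import Pool.Agent.Q284.SL.Ass

/-!
# Project SL: the final statement
-/

set_option autoImplicit false

open Finset Polynomial ComplexConjugate
open Pool.Agent.H341R2.Sharp (Mon mem_Mon)

namespace Pool.Agent.Q284.SL

open Pool.Agent.Q284.PS (Prim Hay CM PD PI qq mem_PI norm_le_one Place absPow Nice Tempered
  RankinSelbergConverges hay_cm)
open Pool.Agent.Q284.PX (SelfDual AF ef Ls gen_nice ef_zero absPow_eq norm_z)
open Pool.Agent.Q284.GE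

theorem Ls_eq {q D : ℕ} {b : ℂ[X]} (hb : b.natDegree = D) {e : ℕ → ℂ}
    (he : ∀ n, e n = (Real.sqrt q : ℂ) ^ n * b.coeff n) :
    Ls q D e = fun s => b.eval ((Real.sqrt q : ℂ) * (q : ℂ) ^ (-s)) := by
  funext s
  rw [eval_eq_sum_range, hb]
  unfold Ls
  apply sum_congr rfl
  intro k _
  rw [he k, mul_pow]
  ring

/-- the Euler product of a polynomial given by Newton's formulas -/
theorem euler_newt (hLGD : S_LGD) (hM : PX.S_AFM) (hEUL : PS.S_EUL) (hDSUM : PS.S_DSUM) (hMAS : S_MAS)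
    (hEUC : S_EUC) (hPSG : S_PSG) {r₀ B ϑ : ℝ} {K : ℕ} (hpar : Par r₀ B ϑ K) (hr1 : r₀ ≤ 1)
    {F : Type} [Field F] [Fintype F] {ι : Type} {p : ι → F[X] → (ι → ℝ) → ℕ → ℝ} (hloc : Loc F ι r₀ B ϑ K p)
    {Y : ι → Type} [∀ i, Fintype (Y i)] {γ : (i : ι) → F[X] → (ι → ℝ) → Y i → ℂ}
    (hγ : ∀ (i : ι) (P : F[X]) (x : ι → ℝ), P.Monic → Irreducible P → (∀ j, |x j| ≤ r₀) →
      (∀ y, ‖γ i P x y‖ ≤ qq F ^ (ϑ * P.natDegree)) ∧ ∀ k : ℕ, 1 ≤ k → ∑ y, γ i P x y ^ k = (p i P x k : ℂ))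
    {ν : ℕ} {a : F[X] → ι → ℝ} (ha : ∀ (P : F[X]) (i : ι), P.Monic → Irreducible P →
      |a P i| ≤ r₀ ∧ |a P i| ≤ r₀ * qq F ^ (-(9 / 10 * GE.eta ν * P.natDegree)))
    {i : ι} {Q : F[X]} {l : ℕ} {χ : F[X] → ℂ} (hχ : Prim Q l χ) {D : ℕ} {ε : ℂ} (hε : ‖ε‖ = 1) {b : ℂ[X]}
    (hb : Uni D ε b) (hN : ∀ N : ℕ, Newt (ps p a i χ) b N) :
    Nice (Fintype.card F) D ε (fun s => b.eval ((Real.sqrt (Fintype.card F) : ℂ) * (Fintype.card F : ℂ) ^ (-s))) ∧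
    ∀ s : ℂ, 1 - 9 / 10 * GE.eta ν < s.re → 1 / 2 + ϑ < s.re →
      HasProd (fun P : Place F => ∏ y, (1 - γ i P.1 (a P.1) y * (χ P.1 * absPow P.1 s))⁻¹)
        (b.eval ((Real.sqrt (Fintype.card F) : ℂ) * (Fintype.card F : ℂ) ^ (-s))) := by
  classical
  have hq2 := two_le_qq (F := F)
  have hq0 : 0 < qq F := by linarith
  have hv : ∀ P : F[X], ∃ v : ℕ → ℝ, v 0 = 1 ∧ (P.Monic → Irreducible P →
      (∀ k : ℕ, 1 ≤ k → (k : ℝ) * v k = ∑ m ∈ Icc 1 k, p i P (a P) m * v (k - m)) ∧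
      (∀ k : ℕ, |v k| ≤ ((k : ℝ) + 1) ^ Fintype.card (Y i) * (qq F ^ (ϑ * P.natDegree)) ^ k) ∧
      ∀ w : ℂ, ‖w‖ * qq F ^ (ϑ * P.natDegree) < 1 →
        HasSum (fun k : ℕ => (v k : ℂ) * w ^ k) (∏ y, (1 - γ i P (a P) y * w)⁻¹)) := by
    intro P
    by_cases h : P.Monic ∧ Irreducible P
    · obtain ⟨h1, h2⟩ := hγ i P (a P) h.1 h.2 (fun j => (ha P j h.1 h.2).1)
      obtain ⟨v, v0, v1, v2, v3⟩ := hPSG (Y i) (γ i P (a P)) (fun k => p i P (a P) k)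
        (qq F ^ (ϑ * P.natDegree)) (Real.rpow_pos_of_pos hq0 _) h1 h2
      exact ⟨v, v0, fun _ _ => ⟨v1, v2, v3⟩⟩
    · exact ⟨fun k => if k = 0 then 1 else 0, by simp, fun h1 h2 => absurd ⟨h1, h2⟩ h⟩
  choose v v0 hv using hv
  have hcm := hay_cm hχ.1
  have hef := ef_eq hLGD hM (v := v) (p := fun P k => p i P (a P) k) v0
    (fun P h1 h2 => (hv P h1 h2).1) hcm hb.zero (S := ps p a i χ) (by
      intro m hm
      have hsq : (Real.sqrt (qq F) : ℂ) ^ m ≠ 0 := by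
        apply pow_ne_zero
        have : 0 < Real.sqrt (qq F) := Real.sqrt_pos.2 hq0
        exact_mod_cast this.ne'
      unfold ps
      rw [div_mul_cancel₀ _ hsq]) hN
  have hqq : Real.sqrt (qq F) = Real.sqrt ((Fintype.card F : ℕ) : ℝ) := rfl
  have hef' : ∀ n, ef v χ n = (Real.sqrt ((Fintype.card F : ℕ) : ℝ) : ℂ) ^ n * b.coeff n := by
    intro n
    rw [hef n, hqq]
  have hLs := Ls_eq hb.deg hef'
  obtain ⟨n1, n2⟩ := nice_rh (q := Fintype.card F) Fintype.one_lt_card hε hb (e := ef v χ) hef'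
  rw [hLs] at n1
  refine ⟨n1, ?_⟩
  intro s hs1 hs2
  have hchi := norm_le_one hχ.1
  have h10 := euler hEUL hDSUM hM hMAS hEUC (e := Fintype.card (Y i)) v0 (δ := 9 / 10 * GE.eta ν) hpar.t0 (by
    intro P h1 h2
    refine ⟨?_, (hv P h1 h2).2.1⟩
    have h3 := (hv P h1 h2).1 1 le_rfl
    have h4 : v P 1 = a P i := by
      rw [Icc_self, sum_singleton, Nat.sub_self, v0 P, mul_one, Nat.cast_one, one_mul] at h3
      rw [h3]
      exact hloc.one i P (a P) h1 h2 (fun j => (ha P j h1 h2).1)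
    rw [h4]
    refine (ha P i h1 h2).2.trans ?_
    have h5 : 0 ≤ qq F ^ (-(9 / 10 * GE.eta ν * P.natDegree)) := by positivity
    nlinarith) hcm hchi (D := D) (by
    intro n hn
    rw [hef n, coeff_eq_zero_of_natDegree_lt (by rw [hb.deg]; exact hn), mul_zero]) hs1 hs2
    (G := fun P : Place F => ∏ y, (1 - γ i P.1 (a P.1) y * (χ P.1 * absPow P.1 s))⁻¹) (by
    rintro ⟨P, h1, h2⟩
    apply (hv P h1 h2).2.2
    have h3 := PX.chi_abs_le hq0 hchi P s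
    have h4 : (1 : ℝ) ≤ P.natDegree := by exact_mod_cast h2.natDegree_pos
    calc ‖χ P * absPow P s‖ * qq F ^ (ϑ * P.natDegree) ≤
        qq F ^ (-s.re * P.natDegree) * qq F ^ (ϑ * P.natDegree) :=
          mul_le_mul_of_nonneg_right h3 (by positivity)
      _ = qq F ^ ((ϑ - s.re) * P.natDegree) := by
          rw [← Real.rpow_add hq0]
          congr 1
          ring
      _ < 1 := by
          apply Real.rpow_lt_one_of_one_lt_of_neg (by linarith)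
          nlinarith)
  rw [hLs] at h10
  exact h10

/-- the final statement -/
def PatStm : Prop := ∀ (n r : ℕ) (δ : ℝ), 4 ≤ n → 1 ≤ r → 0 < δ → δ ≤ 1 → ∃ M₀ : ℕ, 3 ≤ M₀ ∧
  ∀ (F : Type) [Field F] [Fintype F] (ν M : ℕ), 9 ≤ ν → M₀ ≤ M →
  ∀ (h : (F[X] → ℂ) → ℕ) (τ : (F[X] → ℂ) → ℤ → ℝ),
  (∀ (Q : F[X]) (l : ℕ) (χ : F[X] → ℂ), Prim Q l χ →
    ν * (Q.natDegree + max M (l + 1) - 2) ≤ h χ ∧ h (fun f => conj (χ f)) = h χ) →
  (∀ χ, StrictMono (τ χ) ∧ (∀ k : ℤ, τ χ (k + r) = τ χ k + r) ∧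
    ∀ k : ℤ, ∃ j : ℤ, τ (fun f => conj (χ f)) k = -τ χ j) →
  ∃ α : F[X] → Fin n → ℂ, Tempered α ∧ SelfDual α ∧
    (∀ P : F[X], P.Monic → Irreducible P →
      ‖∑ j, α P j‖ ≤ (Fintype.card F : ℝ) ^ (-(9 / 10 * (1 / 2 - 4 / (ν : ℝ)) * P.natDegree))) ∧
    ∀ (Q : F[X]) (l : ℕ) (χ : F[X] → ℂ), Prim Q l χ → ∃ L : ℂ → ℂ,
      Nice (Fintype.card F) (r * h χ) (rootNumber r (τ χ)) L ∧
      FollowsPattern (Fintype.card F) (r * h χ) δ (τ χ) L ∧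
      ∀ s : ℂ, 1 - 9 / 10 * (1 / 2 - 4 / (ν : ℝ)) < s.re →
        HasProd (fun P : Place F => ∏ j, (1 - α P.1 j * (χ P.1 * absPow P.1 s))⁻¹) (L s)

/-- the polynomial `A` -/
theorem exA (hEXP2 : S_EXP2) {r : ℕ} (hr : 1 ≤ r) {q B κ δ : ℝ} (hq : 2 ≤ q) (hκ : 0 < κ) (hδ : 0 < δ) (hδ1 : δ ≤ 1)
    {ν M c h : ℕ} (hh : 1 ≤ h)
    (hnum : ∀ x : ℕ → ℝ, (∀ m, 1 ≤ m → 2 * m < h → 0 ≤ x m ∧ x m ≤ Lm q ν M c m + Rm q B κ M m) →
      ∑ m ∈ (Icc 1 h).filter (fun m => 2 * m < h), x m ≤ δ * h / 16 ∧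
      (∑ m ∈ (Icc 1 h).filter (fun m => 2 * m < h), x m / m * (1 + (q ^ (κ / 2)) ^ m)) +
        2 * Real.log (q ^ (κ / 2) / (q ^ (κ / 2) - 1)) + Real.log ((h : ℝ) / 2 + 1) + Real.log (64 / δ) ≤
        (h : ℝ) / 2 * Real.log (q ^ (κ / 2)))
    {s : ℕ → ℂ} (hs : ∀ m : ℕ, 1 ≤ m → 2 * m < h → ‖s m‖ ≤ Lm q ν M c m + Rm q B κ M m) :
    (tre r h s).coeff 0 = 1 ∧ (∀ n : ℕ, h ≤ 2 * n → (tre r h s).coeff n = 0) ∧
    (∀ z : ℂ, ‖z‖ ≤ 1 → (tre r h s).eval z ≠ 0) ∧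
    (∀ n : ℕ, 1 ≤ n → 2 * n < h →
      (n : ℂ) * (tre r h s).coeff n = ∑ m ∈ Icc 1 n, (s m / r) * (tre r h s).coeff (n - m)) ∧
    ∀ z : ℂ, ‖z‖ = 1 → ‖z * (tre r h s).derivative.eval z‖ ≤ δ / 4 * h * ‖(tre r h s).eval z‖ := by
  have hr1 : (1 : ℝ) ≤ r := by exact_mod_cast hr
  obtain ⟨h1, h2⟩ := hnum (fun m => ‖s m / r‖) (by
    intro m hm1 hm2
    refine ⟨norm_nonneg _, ?_⟩
    rw [norm_div, Complex.norm_natCast]
    refine le_trans (div_le_self (norm_nonneg _) hr1) (hs m hm1 hm2))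
  obtain ⟨A, a1, a2, a3, a4, a5⟩ := hEXP2 h (fun m => s m / r) (q ^ (κ / 2)) δ hh
    (Real.one_lt_rpow (by linarith) (by linarith)) hδ hδ1 h1 h2
  have e : tre r h s = A := tre_eq a1 a2 a4
  rw [e]
  exact ⟨a1, a2, a3, a4, a5⟩

theorem norm_rootNumber (r : ℕ) (τ : ℤ → ℝ) : ‖rootNumber r τ‖ = 1 := by
  unfold rootNumber
  rw [norm_prod]
  apply prod_eq_one
  intro j _
  rw [norm_neg, Complex.norm_exp_ofReal_mul_I]

theorem t_pat (hGENS : GENS) (hEXP2 : S_EXP2) (hNUM2 : S_NUM2) (hTGT : S_TGT) (hPAT : S_PAT) (hPLO : S_PLO)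
    (hNPW : S_NPW) (hGPP : S_GPP) (hUPH : S_UPH) (hLFB : S_LFB) (hLGD : S_LGD) (hM : PX.S_AFM) (hEUL : PS.S_EUL)
    (hDSUM : PS.S_DSUM) (hMAS : S_MAS) (hEUC : S_EUC) (hPSG : S_PSG) : PatStm := by
  classical
  intro n r δ hn hr hδ hδ1
  have hn0 : (4 : ℝ) ≤ n := by exact_mod_cast hn
  have hK : ((n - 1 : ℕ) : ℝ) = (n : ℝ) - 1 := by
    rw [Nat.cast_sub (by omega)]
    push_cast
    ring
  have hpar : Par (1 / 2) n 0 (n - 1) := by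
    refine ⟨by norm_num, by positivity, le_rfl, by omega, ?_⟩
    rw [hK]
    linarith
  have hκ := kap_pos hpar
  set κ : ℝ := kap 0 (n - 1) with hκd
  obtain ⟨M₁, hM1, hGENS⟩ := hGENS (1 / 2) n 0 (n - 1) hpar (r + 1) (by omega)
  obtain ⟨M₂, hM2, hNUM2⟩ := hNUM2 n κ δ (by positivity) hκ (min_le_left _ _) hδ
  refine ⟨max M₁ M₂ + (r + 1), by omega, ?_⟩
  intro F _ _ ν M' hν hM' h τ hh hτ
  obtain ⟨M, rfl⟩ : ∃ M, M' = M + (r + 1) := ⟨M' - (r + 1), by omega⟩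
  have hMM1 : M₁ ≤ M := by have := le_max_left M₁ M₂; omega
  have hMM2 : M₂ ≤ M := by have := le_max_right M₁ M₂; omega
  have hq2 := two_le_qq (F := F)
  have hq0 : 0 < qq F := by linarith
  -- the local data
  have hex : ∀ x : ℝ, ∃ α : Fin n → ℂ, |x| ≤ 1 / 2 → (∀ j, ‖α j‖ = 1) ∧ ∏ j, α j = 1 ∧
      (∀ w : ℂ, ∏ j, (1 - conj (α j) * w) = ∏ j, (1 - α j * w)) ∧
      (∀ k : ℕ, 1 ≤ k → k ≤ n - 2 → ∑ j, α j ^ k = ((x ^ k : ℝ) : ℂ)) ∧ ∀ k : ℕ, (∑ j, α j ^ k).im = 0 := by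
    intro x
    by_cases hx : |x| ≤ 1 / 2
    · obtain ⟨α, h1⟩ := hLFB n (by omega) x hx
      exact ⟨α, fun _ => h1⟩
    · exact ⟨fun _ => 1, fun h' => absurd h' hx⟩
  choose A hA using hex
  let p : Unit → F[X] → (Unit → ℝ) → ℕ → ℝ := fun _ _ x k => (∑ j, A (x ()) j ^ k).re
  have hreal : ∀ (x : ℝ), |x| ≤ 1 / 2 → ∀ k : ℕ, ∑ j, A x j ^ k = (((∑ j, A x j ^ k).re : ℝ) : ℂ) := by
    intro x hx k
    apply Complex.ext
    · rw [Complex.ofReal_re]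
    · rw [Complex.ofReal_im]
      exact (hA x hx).2.2.2.2 k
  have hsmall : ∀ (x : ℝ), |x| ≤ 1 / 2 → ∀ k : ℕ, 1 ≤ k → k ≤ n - 2 → (∑ j, A x j ^ k).re = x ^ k := by
    intro x hx k hk1 hk2
    rw [(hA x hx).2.2.2.1 k hk1 hk2, Complex.ofReal_re]
  have hnorm : ∀ (x : ℝ), |x| ≤ 1 / 2 → ∀ k : ℕ, |(∑ j, A x j ^ k).re| ≤ n := by
    intro x hx k
    refine (Complex.abs_re_le_norm _).trans ((norm_sum_le _ _).trans ?_)
    have : ∀ j ∈ (univ : Finset (Fin n)), ‖A x j ^ k‖ ≤ 1 := by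
      intro j _
      rw [norm_pow, (hA x hx).1 j, one_pow]
    refine (sum_le_sum this).trans ?_
    simp
  have hloc : Loc F Unit (1 / 2) n 0 (n - 1) p := by
    refine ⟨?_, ?_, ?_⟩
    · intro i P x _ _ hx
      show (∑ j, A (x ()) j ^ 1).re = x i
      rw [hsmall (x ()) (hx ()) 1 le_rfl (by omega), pow_one]
    · intro i P x k t _ _ ht hx h2 h3
      have hx1 : |x ()| ≤ 1 / 2 := (hx ()).trans ht
      show |(∑ j, A (x ()) j ^ k).re| ≤ n * t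
      rw [hsmall (x ()) hx1 k (by omega) (by omega), abs_pow]
      have ht0 : 0 ≤ t := (abs_nonneg _).trans (hx ())
      calc |x ()| ^ k ≤ |x ()| ^ 1 := pow_le_pow_of_le_one (abs_nonneg _) (by linarith) (by omega)
        _ = |x ()| := pow_one _
        _ ≤ t := hx ()
        _ ≤ n * t := by nlinarith
    · intro i P x k _ _ hx _
      rw [zero_mul, Real.rpow_zero, mul_one]
      exact hnorm (x ()) (hx ()) k
  let γ : (i : Unit) → F[X] → (Unit → ℝ) → Fin n → ℂ := fun _ _ x j => A (x ()) j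
  have hγ : ∀ (i : Unit) (P : F[X]) (x : Unit → ℝ), P.Monic → Irreducible P → (∀ j, |x j| ≤ 1 / 2) →
      (∀ y, ‖γ i P x y‖ ≤ qq F ^ ((0 : ℝ) * P.natDegree)) ∧
        ∀ k : ℕ, 1 ≤ k → ∑ y, γ i P x y ^ k = (p i P x k : ℂ) := by
    intro i P x _ _ hx
    constructor
    · intro y
      rw [zero_mul, Real.rpow_zero]
      exact ((hA (x ()) (hx ())).1 y).le
    · intro k _
      exact hreal (x ()) (hx ()) k
  -- the rule
  let φ : (F[X] → ℂ) → ℤ → ℝ := fun χ => ang r (τ χ)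
  have hφ1 : ∀ χ, StrictMono (φ χ) := fun χ => ang_mono hr (hτ χ).1
  have hφ2 : ∀ χ (k : ℤ), φ χ (k + r) = φ χ k + 2 * Real.pi := fun χ => ang_per hr (hτ χ).2.1
  have hφ3 : ∀ χ (k : ℤ), ∃ j : ℤ, φ (fun f => conj (χ f)) k = -φ χ j := fun χ => ang_neg (hτ χ).2.2
  let Φ : Unit → (F[X] → ℂ) → (ℕ → ℂ) → ℂ[X] := fun _ χ s => pat r (h χ) (UU r (φ χ)) (tre r (h χ) s)
  have hU : ∀ χ, Uni r (rootNumber r (τ χ)) (UU r (φ χ)) := by
    intro χ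
    have := (hUPH r (φ χ) hr (hφ1 χ) (hφ2 χ)).1
    rwa [rootNumber_eq] at this
  have hpos : ∀ (Q : F[X]) (l : ℕ) (χ : F[X] → ℂ), Prim Q l χ → 1 ≤ h χ := by
    intro Q l χ hχ
    refine le_trans ?_ (hh Q l χ hχ).1
    have h1 := le_max_left (M + (r + 1)) (l + 1)
    have : 9 * 1 ≤ ν * (Q.natDegree + max (M + (r + 1)) (l + 1) - 2) := Nat.mul_le_mul hν (by omega)
    omega
  have hAA : ∀ (Q : F[X]) (l : ℕ) (χ : F[X] → ℂ) (s : ℕ → ℂ), Prim Q l χ →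
      (∀ m : ℕ, 1 ≤ m → 2 * m < h χ → ‖s m‖ ≤ Lm (qq F) ν M (Q.natDegree + l) m + Rm (qq F) n κ M m) →
      (tre r (h χ) s).coeff 0 = 1 ∧ (∀ n : ℕ, h χ ≤ 2 * n → (tre r (h χ) s).coeff n = 0) ∧
      (∀ z : ℂ, ‖z‖ ≤ 1 → (tre r (h χ) s).eval z ≠ 0) ∧
      (∀ n : ℕ, 1 ≤ n → 2 * n < h χ →
        (n : ℂ) * (tre r (h χ) s).coeff n = ∑ m ∈ Icc 1 n, (s m / r) * (tre r (h χ) s).coeff (n - m)) ∧
      ∀ z : ℂ, ‖z‖ = 1 → ‖z * (tre r (h χ) s).derivative.eval z‖ ≤ δ / 4 * h χ * ‖(tre r (h χ) s).eval z‖ := by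
    intro Q l χ s hχ hs
    have hdeg := (hh Q l χ hχ).1
    have h1 : ν * (Q.natDegree + l - 1) ≤ h χ := by
      refine le_trans (Nat.mul_le_mul_left ν ?_) hdeg
      have := le_max_right (M + (r + 1)) (l + 1)
      omega
    have h2 : ν * (M - 2) ≤ h χ := by
      refine le_trans (Nat.mul_le_mul_left ν ?_) hdeg
      have := le_max_left (M + (r + 1)) (l + 1)
      omega
    exact exA hEXP2 hr hq2 hκ hδ hδ1 (hpos Q l χ hχ)
      (fun x hx => hNUM2 M hMM2 (qq F) ν hq2 hν (Q.natDegree + l) (h χ) h1 h2 x hx) hs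
  have huni : ∀ (Q : F[X]) (l : ℕ) (χ : F[X] → ℂ) (s : ℕ → ℂ), Prim Q l χ →
      (∀ m : ℕ, 1 ≤ m → 2 * m < h χ → ‖s m‖ ≤ Lm (qq F) ν M (Q.natDegree + l) m + Rm (qq F) n κ M m) →
      Uni (r * h χ) (rootNumber r (τ χ)) (pat r (h χ) (UU r (φ χ)) (tre r (h χ) s)) := by
    intro Q l χ s hχ hs
    obtain ⟨a1, a2, a3, a4, a5⟩ := hAA Q l χ s hχ hs
    exact hPAT r (h χ) _ _ _ hr (hpos Q l χ hχ) (norm_rootNumber r _) (hU χ) a1 a2 a3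
  have hΦ : Rule F Unit (r + 1) n κ ν M (fun _ => h) Φ := by
    refine ⟨?_, ?_, ?_⟩
    · intro i χ s s' hs
      show pat r (h χ) (UU r (φ χ)) (tre r (h χ) s) = pat r (h χ) (UU r (φ χ)) (tre r (h χ) s')
      rw [tre_congr hs]
    · intro i Q l χ s hχ
      show pat r (h (fun f => conj (χ f))) (UU r (φ (fun f => conj (χ f))))
        (tre r (h (fun f => conj (χ f))) (fun m => conj (s m))) = _
      rw [(hh Q l χ hχ).2, tre_conj, (hUPH r (φ χ) hr (hφ1 χ) (hφ2 χ)).2.2.2 _ (hφ1 _) (hφ2 _) (hφ3 χ), pat_conj]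
    · intro i Q l χ s hχ hs
      have hu := huni Q l χ s hχ hs
      obtain ⟨a1, a2, a3, a4, a5⟩ := hAA Q l χ s hχ hs
      refine ⟨hu.zero, ?_, ?_⟩
      · intro k hk1 hk2
        show (k : ℂ) * (pat r (h χ) (UU r (φ χ)) (tre r (h χ) s)).coeff k =
          ∑ m ∈ Icc 1 k, s m * (pat r (h χ) (UU r (φ χ)) (tre r (h χ) s)).coeff (k - m)
        rw [hPLO r (h χ) _ _ (hU χ).zero k hk2, hNPW r (h χ) _ s hr a4 k hk1 hk2]
        apply sum_congr rfl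
        intro m hm
        rw [mem_Icc] at hm
        rw [hPLO r (h χ) _ _ (hU χ).zero (k - m) (by omega)]
      · obtain ⟨_, s', h6, h7⟩ := hTGT _ _ _ hu
        refine ⟨s', ?_, h7⟩
        intro m hm
        refine (h6 m hm).trans ?_
        push_cast
        have : (0 : ℝ) ≤ h χ := Nat.cast_nonneg _
        nlinarith
  have hdeg : Deg F Unit ν (M + (r + 1)) (fun _ => h) :=
    ⟨fun _ Q l χ hχ => (hh Q l χ hχ).1, fun _ Q l χ hχ => (hh Q l χ hχ).2⟩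
  obtain ⟨a, ha, hmain⟩ := hGENS F Unit p hloc ν M hν hMM1 (fun _ => h) hdeg Φ hΦ
  have har : ∀ P : F[X], P.Monic → Irreducible P → |a P ()| ≤ 1 / 2 := fun P h1 h2 => (ha P () h1 h2).1
  refine ⟨fun P => A (a P ()), ?_, ?_, ?_, ?_⟩
  · intro P h1 h2
    exact ⟨(hA _ (har P h1 h2)).1, (hA _ (har P h1 h2)).2.1⟩
  · intro P h1 h2
    exact (hA _ (har P h1 h2)).2.2.1
  · intro P h1 h2
    have h3 := (hA _ (har P h1 h2)).2.2.2.1 1 le_rfl (by omega)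
    simp only [pow_one] at h3
    rw [h3, Complex.norm_real, Real.norm_eq_abs]
    refine (ha P () h1 h2).2.trans ?_
    have h5 : 0 ≤ qq F ^ (-(9 / 10 * GE.eta ν * P.natDegree)) := by positivity
    have h6 : 1 / 2 * qq F ^ (-(9 / 10 * GE.eta ν * P.natDegree)) ≤ qq F ^ (-(9 / 10 * GE.eta ν * P.natDegree)) := by
      linarith
    exact h6
  · intro Q l χ hχ
    obtain ⟨hfree, hN⟩ := hmain () Q l χ hχ
    have hu := huni Q l χ (ps p a () χ) hχ hfree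
    obtain ⟨a1, a2, a3, a4, a5⟩ := hAA Q l χ (ps p a () χ) hχ hfree
    obtain ⟨n1, n2⟩ := euler_newt hLGD hM hEUL hDSUM hMAS hEUC hPSG hpar (by norm_num) hloc hγ ha (i := ()) hχ
      (norm_rootNumber r (τ χ)) hu hN
    refine ⟨_, n1, ?_, ?_⟩
    · obtain ⟨u1, u2, u3, _⟩ := hUPH r (φ χ) hr (hφ1 χ) (hφ2 χ)
      obtain ⟨θ, t1, t2, t3, t4⟩ := hGPP r (h χ) (UU r (φ χ)) (tre r (h χ) (ps p a () χ)) δ (φ χ) hr
        (hpos Q l χ hχ) hδ hδ1 (hφ1 χ) (hφ2 χ) (hU χ).deg.le u2 u3 a1 a2 a3 a5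
      exact follows (Fintype.one_lt_card) hr hu.root t1 t2 t3 t4
    · intro s hs
      exact n2 s hs (by
        have : 4 / (ν : ℝ) ≥ 0 := by positivity
        linarith)

end Pool.Agent.Q284.SL
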