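import Pool.Agent.Q284.GE.Lev
import Pool.Agent.Q284.SL.Fin
import Pool.Agent.Q38.SL.PAT
import Pool.Agent.Q38.SL.GPP
import Pool.Agent.Q211.SL.PLO
import Pool.Agent.Q211.SL.NPW
import Pool.Agent.Q166.SL.UPH
import Pool.Agent.Q195.GE.EXP2
import Pool.Agent.Q195.GE.NUM2

/-!
# Project SL: the engine and the final statement
-/

set_option autoImplicit false

open Finset Polynomial ComplexConjugate

namespace Pool.Agent.Q284.SL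

theorem gens : GENS := by
  have hHC := Pool.Agent.Q53.PS.t_HC
  have hCMON := Pool.Agent.Q53.PS.t_CMON
  have hVAN := Pool.Agent.Q166.PS.Van.t_VAN
  have hUNI := Pool.Agent.Q277.PS.t_UNI Pool.Agent.Q68.PS.t_CRT Pool.Agent.Q68.PS.t_ETA
  have hCNT := Pool.Agent.Q53.PS.t_CNT hHC hVAN hCMON
  have hWPR := Pool.Agent.Q53.GE.t_WPR WE.weil_hayes hUNI
  exact t_gens Pool.Agent.Q53.GE.t_PLB (Pool.Agent.Q208.GE.t_GSL hWPR) (Pool.Agent.Q96.GE.t_CN2 hCNT)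
    (Pool.Agent.Q14.GE.t_RPW Pool.Agent.Q53.GE.t_PLB) Pool.Agent.Q224.GE.t_NUM

/-- every pattern -/
theorem patStm : PatStm :=
  t_pat gens Pool.Agent.Q195.GE.t_EXP2 Pool.Agent.Q195.GE.t_NUM2 Pool.Agent.Q96.GE.t_TGT Pool.Agent.Q38.SL.t_PAT
    _root_.Q211.SL.t_PLO _root_.Q211.SL.t_NPW Pool.Agent.Q38.SL.t_GPP Pool.Agent.Q166.SL.t_UPH
    (Pool.Agent.Q198.GE.t_LFB Pool.Agent.Q150.GE.t_CIR Pool.Agent.Q96.GE.t_TGT) Pool.Agent.Q224.GE.t_LGD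
    Pool.Agent.Q237.PX.t_AFM Pool.Agent.Q92.PS.t_EUL Pool.Agent.Q92.PS.t_DSUM Pool.Agent.Q224.GE.t_MAS
    (Pool.Agent.Q224.GE.t_EUC Pool.Agent.Q53.GE.t_PLB) Pool.Agent.Q224.GE.t_PSG

end Pool.Agent.Q284.SL
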