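import Pool.Agent.Q284.SL.Eng
import Pool.Agent.Q284.GE.Stm3
import Pool.Agent.Q284.GE.Ass

/-!
# Project SL: from the engine to the final statement
-/

set_option autoImplicit false

open Finset Polynomial ComplexConjugate
open Pool.Agent.H341R2.Sharp (Mon mem_Mon)

namespace Pool.Agent.Q284.SL

open Pool.Agent.Q284.PS (Prim Hay CM PD PI qq mem_PI norm_le_one Place absPow Nice Tempered
  RankinSelbergConverges hay_cm)
open Pool.Agent.Q284.PX (SelfDual AF ef Ls gen_nice ef_zero absPow_eq norm_z)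
open Pool.Agent.Q284.GE

/-! ## The rule -/

theorem ec_zero (s : ℕ → ℂ) : ec s 0 = 1 := by
  rw [ec, if_pos rfl]

theorem ec_rec (s : ℕ → ℂ) {n : ℕ} (hn : 1 ≤ n) : (n : ℂ) * ec s n = ∑ m ∈ Icc 1 n, s m * ec s (n - m) := by
  have hn0 : (n : ℂ) ≠ 0 := by exact_mod_cast (by omega : n ≠ 0)
  rw [ec, if_neg (by omega), mul_div_cancel₀ _ hn0]
  exact sum_attach (Icc 1 n) (fun m => s m * ec s (n - m))

theorem ec_unique {s e : ℕ → ℂ} {h : ℕ} (h0 : e 0 = 1)
    (h1 : ∀ n : ℕ, 1 ≤ n → 2 * n < h → (n : ℂ) * e n = ∑ m ∈ Icc 1 n, s m * e (n - m)) :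
    ∀ n : ℕ, 2 * n < h → e n = ec s n := by
  intro n
  induction n using Nat.strong_induction_on with
  | _ n ih =>
    intro hn
    rcases Nat.eq_zero_or_pos n with rfl | hp
    · rw [h0, ec_zero]
    · have hn0 : (n : ℂ) ≠ 0 := by exact_mod_cast (by omega : n ≠ 0)
      apply mul_left_cancel₀ hn0
      rw [h1 n hp hn, ec_rec s hp]
      apply sum_congr rfl
      intro m hm
      rw [mem_Icc] at hm
      rw [ih (n - m) (by omega) (by omega)]

theorem ec_congr {s s' : ℕ → ℂ} {h : ℕ} (hs : ∀ m : ℕ, 1 ≤ m → 2 * m < h → s m = s' m) {n : ℕ} (hn : 2 * n < h) :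
    ec s n = ec s' n := by
  refine ec_unique (h := h) (ec_zero s) ?_ n hn
  intro n hn1 hn2
  rw [ec_rec s hn1]
  apply sum_congr rfl
  intro m hm
  rw [mem_Icc] at hm
  rw [hs m hm.1 (by omega)]

theorem ec_conj (s : ℕ → ℂ) (n : ℕ) : ec (fun m => conj (s m)) n = conj (ec s n) := by
  symm
  refine ec_unique (h := 2 * n + 1) (s := fun m => conj (s m)) (e := fun n => conj (ec s n)) ?_ ?_ n (by omega)
  · show conj (ec s 0) = 1
    rw [ec_zero, map_one]
  · intro k hk _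
    show (k : ℂ) * conj (ec s k) = _
    have := congrArg conj (ec_rec s hk)
    rw [map_mul, map_natCast, map_sum] at this
    rw [this]
    apply sum_congr rfl
    intro m _
    rw [map_mul]

theorem tre_congr {r h : ℕ} {s s' : ℕ → ℂ} (hs : ∀ m : ℕ, 1 ≤ m → 2 * m < h → s m = s' m) :
    tre r h s = tre r h s' := by
  unfold tre
  apply sum_congr rfl
  intro n hn
  rw [mem_filter] at hn
  rw [ec_congr (h := h) (s := fun m => s m / r) (s' := fun m => s' m / r)
    (fun m h1 h2 => by rw [hs m h1 h2]) hn.2]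

theorem tre_conj (r h : ℕ) (s : ℕ → ℂ) : tre r h (fun m => conj (s m)) = (tre r h s).map (starRingEnd ℂ) := by
  unfold tre
  rw [Polynomial.map_sum]
  apply sum_congr rfl
  intro n _
  rw [Polynomial.map_mul, Polynomial.map_pow, map_C, map_X]
  congr 2
  have e : (fun m : ℕ => conj (s m) / (r : ℂ)) = fun m => conj (s m / r) := by
    funext m
    rw [map_div₀, map_natCast]
  rw [e, ec_conj]

theorem tre_eq {r h : ℕ} {s : ℕ → ℂ} {A : ℂ[X]} (h0 : A.coeff 0 = 1) (h1 : ∀ n : ℕ, h ≤ 2 * n → A.coeff n = 0)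
    (h2 : ∀ n : ℕ, 1 ≤ n → 2 * n < h → (n : ℂ) * A.coeff n = ∑ m ∈ Icc 1 n, (s m / r) * A.coeff (n - m)) :
    tre r h s = A := by
  ext n
  unfold tre
  rw [finsetSum_coeff]
  simp only [coeff_C_mul, coeff_X_pow, mul_ite, mul_one, mul_zero]
  rw [sum_ite_eq]
  split_ifs with h3
  · rw [mem_filter] at h3
    exact (ec_unique (h := h) (s := fun m => s m / r) h0 h2 n h3.2).symm
  · rw [mem_filter, mem_range] at h3
    rw [h1 n (by omega)]

theorem star_conj (h : ℕ) (A : ℂ[X]) : star h (A.map (starRingEnd ℂ)) = (star h A).map (starRingEnd ℂ) := by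
  unfold star
  rw [Polynomial.map_sum]
  apply sum_congr rfl
  intro n _
  rw [Polynomial.map_mul, Polynomial.map_pow, map_C, map_X, coeff_map]

theorem pat_conj (r h : ℕ) (U A : ℂ[X]) :
    pat r h (U.map (starRingEnd ℂ)) (A.map (starRingEnd ℂ)) = (pat r h U A).map (starRingEnd ℂ) := by
  unfold pat
  rw [Polynomial.map_sum]
  apply sum_congr rfl
  intro n _
  rw [Polynomial.map_mul, Polynomial.map_mul, Polynomial.map_pow, Polynomial.map_pow, map_C, coeff_map, star_conj]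

/-! ## The `L`-functions -/

/-- the zeros of `L` are simple, all of them are on the line `Re s = 1/2`, and their ordinates `t k`, `k ∈ ℤ`, in
increasing order have the gaps of the pattern `τ` (mean gap `1`) up to the relative error `δ`, if they are normalised by
the mean gap `2π/(D log q)` -/
def FollowsPattern (q D : ℕ) (δ : ℝ) (τ : ℤ → ℝ) (L : ℂ → ℂ) : Prop :=
  ∃ t : ℤ → ℝ, StrictMono t ∧ (∀ s : ℂ, L s = 0 ↔ ∃ k : ℤ, s = 1 / 2 + t k * Complex.I) ∧
    (∀ k : ℤ, deriv L (1 / 2 + t k * Complex.I) ≠ 0) ∧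
    ∀ k : ℤ, |D * Real.log q / (2 * Real.pi) * (t (k + 1) - t k) - (τ (k + 1) - τ k)| ≤ δ * (τ (k + 1) - τ k)

/-- the angles of the roots from the pattern -/
noncomputable def ang (r : ℕ) (τ : ℤ → ℝ) (k : ℤ) : ℝ := -(2 * Real.pi / r) * τ ((r : ℤ) - 1 - k)

theorem ang_mono {r : ℕ} (hr : 1 ≤ r) {τ : ℤ → ℝ} (hτ : StrictMono τ) : StrictMono (ang r τ) := by
  intro k l hkl
  unfold ang
  have h1 : τ ((r : ℤ) - 1 - l) < τ ((r : ℤ) - 1 - k) := hτ (by omega)
  have hr0 : (0 : ℝ) < r := by exact_mod_cast hr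
  have h2 : 0 < 2 * Real.pi / r := by positivity
  nlinarith

theorem ang_per {r : ℕ} (hr : 1 ≤ r) {τ : ℤ → ℝ} (hτ : ∀ k : ℤ, τ (k + r) = τ k + r) (k : ℤ) :
    ang r τ (k + r) = ang r τ k + 2 * Real.pi := by
  unfold ang
  have hr0 : (0 : ℝ) < r := by exact_mod_cast hr
  have h1 := hτ ((r : ℤ) - 1 - (k + r))
  have e : (r : ℤ) - 1 - (k + r) + r = (r : ℤ) - 1 - k := by ring
  rw [e] at h1
  rw [h1]
  field_simp
  ring

theorem ang_neg {r : ℕ} {τ τ' : ℤ → ℝ} (h : ∀ k : ℤ, ∃ j : ℤ, τ' k = -τ j) :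
    ∀ k : ℤ, ∃ j : ℤ, ang r τ' k = -ang r τ j := by
  intro k
  obtain ⟨j, hj⟩ := h ((r : ℤ) - 1 - k)
  refine ⟨(r : ℤ) - 1 - j, ?_⟩
  unfold ang
  rw [hj]
  have e : (r : ℤ) - 1 - ((r : ℤ) - 1 - j) = j := by ring
  rw [e]
  ring

/-- the root number which belongs to the pattern -/
noncomputable def rootNumber (r : ℕ) (τ : ℤ → ℝ) : ℂ :=
  ∏ j ∈ range r, (-Complex.exp ((2 * Real.pi / r * τ (j : ℤ) : ℝ) * Complex.I))

theorem rootNumber_eq (r : ℕ) (τ : ℤ → ℝ) :
    ∏ j ∈ range r, (-Complex.exp (-((ang r τ (j : ℤ) : ℝ) : ℂ) * Complex.I)) = rootNumber r τ := by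
  unfold rootNumber
  rw [← prod_range_reflect (fun j => -Complex.exp ((2 * Real.pi / r * τ (j : ℤ) : ℝ) * Complex.I)) r]
  apply prod_congr rfl
  intro j hj
  rw [mem_range] at hj
  unfold ang
  have e : (r : ℤ) - 1 - (j : ℤ) = ((r - 1 - j : ℕ) : ℤ) := by omega
  rw [e]
  congr 2
  push_cast
  ring

/-- the zeros of `L(s) = b(√q q^(-s))` -/
theorem follows {q : ℕ} (hq : 2 ≤ q) {r h : ℕ} (hr : 1 ≤ r) {δ : ℝ} {τ : ℤ → ℝ} {b : ℂ[X]}
    (hroot : ∀ z : ℂ, b.eval z = 0 → ‖z‖ = 1) {θ : ℤ → ℝ} (hθ : StrictMono θ)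
    (h1 : ∀ x : ℝ, b.eval (Complex.exp (x * Complex.I)) = 0 ↔ ∃ k : ℤ, x = θ k)
    (h2 : ∀ k : ℤ, b.derivative.eval (Complex.exp (θ k * Complex.I)) ≠ 0)
    (h3 : ∀ k : ℤ, |(h : ℝ) * (θ (k + 1) - θ k) - (ang r τ (k + 1) - ang r τ k)| ≤
      δ * (ang r τ (k + 1) - ang r τ k)) :
    FollowsPattern q (r * h) δ τ (fun s => b.eval ((Real.sqrt q : ℂ) * (q : ℂ) ^ (-s))) := by
  have hq1 : (1 : ℝ) < q := by exact_mod_cast (by omega : 1 < q)
  have hq0 : (0 : ℝ) < q := by linarith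
  have hlog : 0 < Real.log q := Real.log_pos hq1
  have hqC : (q : ℂ) = (((q : ℝ) : ℝ) : ℂ) := by push_cast; rfl
  have hqC0 : (q : ℂ) ≠ 0 := by exact_mod_cast (by omega : q ≠ 0)
  -- the point on the circle
  have hpt : ∀ y : ℝ, (Real.sqrt q : ℂ) * (q : ℂ) ^ (-(1 / 2 + (y : ℂ) * Complex.I)) =
      Complex.exp (((-(y * Real.log q) : ℝ) : ℂ) * Complex.I) := by
    intro y
    have e1 : (Real.sqrt q : ℂ) = Complex.exp ((Real.log q / 2 : ℝ) : ℂ) := by
      rw [← Complex.ofReal_exp, Real.exp_half, Real.exp_log hq0]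
    rw [e1, Complex.cpow_def_of_ne_zero hqC0, hqC, ← Complex.ofReal_log hq0.le, ← Complex.exp_add]
    congr 1
    push_cast
    ring
  set L : ℂ → ℂ := fun s => b.eval ((Real.sqrt q : ℂ) * (q : ℂ) ^ (-s)) with hL
  refine ⟨fun k => -θ ((r : ℤ) - 1 - k) / Real.log q, ?_, ?_, ?_, ?_⟩
  · intro k l hkl
    show -θ ((r : ℤ) - 1 - k) / Real.log q < -θ ((r : ℤ) - 1 - l) / Real.log q
    apply div_lt_div_of_pos_right _ hlog
    have := hθ (show (r : ℤ) - 1 - l < (r : ℤ) - 1 - k by omega)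
    linarith
  · intro s
    constructor
    · intro hs
      have h4 := hroot _ hs
      rw [norm_mul, Complex.norm_real, Real.norm_eq_abs, abs_of_nonneg (Real.sqrt_nonneg _), hqC,
        Complex.norm_cpow_eq_rpow_re_of_pos hq0, Real.sqrt_eq_rpow, ← Real.rpow_add hq0] at h4
      have h5 := congrArg Real.log h4
      rw [Real.log_rpow hq0, Real.log_one] at h5
      have h6 := (mul_eq_zero.1 h5).resolve_right hlog.ne'
      rw [Complex.neg_re] at h6
      have hs2 : s = 1 / 2 + ((s.im : ℝ) : ℂ) * Complex.I := by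
        apply Complex.ext
        · simp
          linarith
        · simp
      have h7 : b.eval (Complex.exp (((-(s.im * Real.log q) : ℝ) : ℂ) * Complex.I)) = 0 := by
        rw [← hpt, ← hs2]
        exact hs
      obtain ⟨k, hk⟩ := (h1 _).1 h7
      refine ⟨(r : ℤ) - 1 - k, ?_⟩
      have e : (r : ℤ) - 1 - ((r : ℤ) - 1 - k) = k := by ring
      show s = 1 / 2 + ((-θ ((r : ℤ) - 1 - ((r : ℤ) - 1 - k)) / Real.log q : ℝ) : ℂ) * Complex.I
      rw [e, ← hk, neg_neg, mul_div_cancel_right₀ _ hlog.ne']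
      exact hs2
    · rintro ⟨k, hk⟩
      show b.eval ((Real.sqrt q : ℂ) * (q : ℂ) ^ (-s)) = 0
      rw [hk, hpt]
      apply (h1 _).2
      refine ⟨(r : ℤ) - 1 - k, ?_⟩
      field_simp
  · intro k
    set y : ℝ := -θ ((r : ℤ) - 1 - k) / Real.log q with hy
    have hyl : -(y * Real.log q) = θ ((r : ℤ) - 1 - k) := by
      rw [hy]
      field_simp
    set s₀ : ℂ := 1 / 2 + (y : ℂ) * Complex.I with hs₀
    have hd : HasDerivAt L (b.derivative.eval ((Real.sqrt q : ℂ) * (q : ℂ) ^ (-s₀)) *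
        ((Real.sqrt q : ℂ) * ((q : ℂ) ^ (-s₀) * Complex.log q * (-1)))) s₀ := by
      have h4 : HasDerivAt (fun s : ℂ => -s) (-1) s₀ := (hasDerivAt_id s₀).neg
      have h5 : HasDerivAt (fun s : ℂ => (q : ℂ) ^ (-s)) ((q : ℂ) ^ (-s₀) * Complex.log q * (-1)) s₀ :=
        h4.const_cpow (Or.inl hqC0)
      have h6 := h5.const_mul (Real.sqrt q : ℂ)
      exact (b.hasDerivAt _).comp s₀ h6
    rw [hd.deriv]
    have h7 : b.derivative.eval ((Real.sqrt q : ℂ) * (q : ℂ) ^ (-s₀)) ≠ 0 := by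
      rw [hs₀, hpt, hyl]
      exact h2 _
    refine mul_ne_zero h7 (mul_ne_zero ?_ (mul_ne_zero (mul_ne_zero ?_ ?_) (by norm_num)))
    · have : 0 < Real.sqrt q := Real.sqrt_pos.2 hq0
      exact_mod_cast this.ne'
    · rw [Complex.cpow_def_of_ne_zero hqC0]
      exact Complex.exp_ne_zero _
    · rw [hqC, ← Complex.ofReal_log hq0.le]
      exact_mod_cast hlog.ne'
  · intro k
    have hr0 : (0 : ℝ) < r := by exact_mod_cast hr
    have h4 := h3 ((r : ℤ) - 1 - (k + 1))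
    have e1 : (r : ℤ) - 1 - (k + 1) + 1 = (r : ℤ) - 1 - k := by ring
    rw [e1] at h4
    have e2 : ang r τ ((r : ℤ) - 1 - k) - ang r τ ((r : ℤ) - 1 - (k + 1)) =
        (2 * Real.pi / r) * (τ (k + 1) - τ k) := by
      unfold ang
      have e3 : (r : ℤ) - 1 - ((r : ℤ) - 1 - k) = k := by ring
      have e4 : (r : ℤ) - 1 - ((r : ℤ) - 1 - (k + 1)) = k + 1 := by ring
      rw [e3, e4]
      ring
    rw [e2] at h4
    set g : ℝ := τ (k + 1) - τ k with hg
    set G : ℝ := θ ((r : ℤ) - 1 - k) - θ ((r : ℤ) - 1 - (k + 1)) with hG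
    have e5 : ((r * h : ℕ) : ℝ) * Real.log q / (2 * Real.pi) *
        (-θ ((r : ℤ) - 1 - (k + 1)) / Real.log q - -θ ((r : ℤ) - 1 - k) / Real.log q) - g =
        (r / (2 * Real.pi)) * ((h : ℝ) * G - (2 * Real.pi / r) * g) := by
      rw [hG]
      have := Real.pi_pos
      push_cast
      field_simp
      ring
    show |((r * h : ℕ) : ℝ) * Real.log q / (2 * Real.pi) *
        (-θ ((r : ℤ) - 1 - (k + 1)) / Real.log q - -θ ((r : ℤ) - 1 - k) / Real.log q) - g| ≤ δ * g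
    rw [e5, abs_mul, abs_of_pos (by have := Real.pi_pos; positivity)]
    calc r / (2 * Real.pi) * |(h : ℝ) * G - (2 * Real.pi / r) * g| ≤
        r / (2 * Real.pi) * (δ * ((2 * Real.pi / r) * g)) := by
          apply mul_le_mul_of_nonneg_left h4
          have := Real.pi_pos
          positivity
      _ = δ * g := by
          have := Real.pi_pos
          field_simp

end Pool.Agent.Q284.SL
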