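import Pool.Agent.Q284.GE.Stm

/-!
# Project SL: every spacing law is possible for the zeros of all abelian twists

Statements of the lemma jobs; the doc comment of every `S_...` is its complete proof.  `GE.Uni D ε b` (`b` is a polynomial
of degree `D`, `b(0) = 1`, functional equation with root number `ε`, all roots on the unit circle) and `GE.Newt` are in
`Pool/Agent/Q284/GE/Defs.lean`.
-/

set_option autoImplicit false

open Finset Polynomial ComplexConjugate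

namespace Pool.Agent.Q284.SL

open Pool.Agent.Q284.GE (Uni Newt)

/-- coefficients of `exp (∑ s_m z^m/m)` -/
noncomputable def ec (s : ℕ → ℂ) (n : ℕ) : ℂ :=
  if n = 0 then 1 else (∑ m ∈ (Icc 1 n).attach, s m.1 * ec s (n - m.1)) / n
termination_by n
decreasing_by
  have := Finset.mem_Icc.1 m.2
  omega

/-- the truncation of `exp (1/r ∑ s_m z^m/m)` to the degrees `n` with `2n < h` -/
noncomputable def tre (r h : ℕ) (s : ℕ → ℂ) : ℂ[X] :=
  ∑ n ∈ (range h).filter (fun n => 2 * n < h), C (ec (fun m => s m / r) n) * X ^ n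

/-- `A*(z) = z^h conj (A(1/conj z))` for a polynomial `A` of degree `< h/2` -/
noncomputable def star (h : ℕ) (A : ℂ[X]) : ℂ[X] :=
  ∑ n ∈ (range h).filter (fun n => 2 * n < h), C (conj (A.coeff n)) * X ^ (h - n)

/-- the polynomial `A^r U(A*/A)` of degree `r h`, for a polynomial `U` of degree `r` (the pattern) -/
noncomputable def pat (r h : ℕ) (U A : ℂ[X]) : ℂ[X] :=
  ∑ j ∈ range (r + 1), C (U.coeff j) * A ^ (r - j) * star h A ^ j

/-- the polynomial of degree `r` with the roots `exp (i φ_j)`, `0 ≤ j < r` -/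
noncomputable def UU (r : ℕ) (φ : ℤ → ℝ) : ℂ[X] :=
  ∏ j ∈ range r, (1 - C (Complex.exp (-((φ (j : ℤ) : ℝ) : ℂ) * Complex.I)) * X)

/-- **PAT** (substitution of a pattern).  `u_j = U.coeff j`, `A* = star h A`, `b = pat r h U A`.  Degree: `A` has degree
`< h/2`, `A*` has degree `h` and leading coefficient `conj A_0 = 1` (from `n = 0`), so `A^(r-j) (A*)^j` has degree
`< rh` for `j < r`, and for `j = r` degree `rh`, leading coefficient `1`; `u_r = ε conj u_0 = ε` (`fe` for `U`,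
`k = 0`).  `A*` has no constant term, so `b_0 = u_0 A_0^r = 1`.
Functional equation: for `z ≠ 0`, `A*(z) = z^h conj (A(1/conj z))` and (inverse formula)
`A(z) = z^h conj (A*(1/conj z))`.  So
`z^(rh) conj (b(1/conj z)) = ∑ conj u_j (z^h conj A(1/conj z))^(r-j) (z^h conj A*(1/conj z))^j =
∑ conj u_j (A*)^(r-j) A^j = ∑_j conj u_(r-j) (A*)^j A^(r-j)`, and `u_j = ε conj u_(r-j)`, so
`b(z) = ε z^(rh) conj (b(1/conj z))` for all `z ≠ 0`; compare coefficients (`k ↦ rh - k`).  (Or purely with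
coefficients: `Polynomial.reflect` is multiplicative.)
Roots: let `b(z) = 0`, `‖z‖ < 1`.  `A(z) ≠ 0`, `w = A*(z)/A(z)`, `b(z) = A(z)^r U(w)`, so `U(w) = 0` and `‖w‖ = 1`.
But `A*/A` is continuous on the closed unit disk, holomorphic inside, of absolute value one on the circle
(`‖A*(z)‖ = ‖A(z)‖` there), and zero at `0`, so `‖w‖ ≤ ‖z‖ < 1` (Schwarz, or the maximum principle; see the proof of
`S_CIR`, `Pool/Agent/Q150/GE/CIR.lean`).  `‖z‖ > 1`: by the functional equation `b(1/conj z) = 0`. -/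
def S_PAT : Prop := ∀ (r h : ℕ) (ε : ℂ) (U A : ℂ[X]), 1 ≤ r → 1 ≤ h → ‖ε‖ = 1 → Uni r ε U → A.coeff 0 = 1 →
  (∀ n : ℕ, h ≤ 2 * n → A.coeff n = 0) → (∀ z : ℂ, ‖z‖ ≤ 1 → A.eval z ≠ 0) → Uni (r * h) ε (pat r h U A)

/-- **PLO** (the low coefficients of the pattern polynomial).  Proof.  All exponents in `star h A` are `h - n > h/2`,
so for `j ≥ 1` the coefficients of `star h A ^ j` at `X^n` vanish for `2n < h`, and so do those of the products; the
term `j = 0` is `U_0 A^r = A^r`. -/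
def S_PLO : Prop := ∀ (r h : ℕ) (U A : ℂ[X]), U.coeff 0 = 1 → ∀ n : ℕ, 2 * n < h →
  (pat r h U A).coeff n = (A ^ r).coeff n

/-- **NPW** (Newton's formulas for powers).  Proof.  As formal power series: `X A' ≡ (1/r) S A`, `S = ∑_{m ≥ 1} s_m X^m`,
in the degrees `n` with `2n < h` (degree `0`: both sides `0`).  `X (A^r)' = r A^(r-1) (X A')`, and since the set of the
degrees `n` with `2n < h` is an initial segment, `X (A^r)' ≡ A^(r-1) S A = S A^r` in these degrees.  Compare the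
coefficients: the coefficient of `X^n` in `S A^r` is `∑_{m ∈ Icc 1 n} s_m (A^r)_(n-m)`. -/
def S_NPW : Prop := ∀ (r h : ℕ) (A : ℂ[X]) (s : ℕ → ℂ), 1 ≤ r →
  (∀ n : ℕ, 1 ≤ n → 2 * n < h → (n : ℂ) * A.coeff n = ∑ m ∈ Icc 1 n, (s m / r) * A.coeff (n - m)) →
  ∀ n : ℕ, 1 ≤ n → 2 * n < h → (n : ℂ) * (A ^ r).coeff n = ∑ m ∈ Icc 1 n, s m * (A ^ r).coeff (n - m)

/-- **GPP** (the zeros of the pattern polynomial).  Extends the proof of `GE.S_GAP` (`Pool/Agent/Q223/GE/GAP.lean`, the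
case `r = 1`).  Proof.  `b(z) = A(z)^r U(A*(z)/A(z))` for `‖z‖ = 1` (`U` has degree `≤ r`).  Let `z = exp (ix)`:
`A*(z) = z^h conj (A(z))`.  `A` has no zeros in the closed unit disk, so there is a differentiable `f : ℝ → ℝ` with
`A(e^(ix)) = |A(e^(ix))| e^(i f(x))` and `f'(x) = Re (z A'(z)/A(z))`.  `g(x) = h x - 2 f(x)`: `A*/A = e^(i g(x))`, and
`g' = h - 2 Re (z A'/A)` lies in `[h (1 - δ/2), h (1 + δ/2)]`, so `g` is strictly increasing, unbounded in both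
directions, bijective.  `b(e^(ix)) = A^r U(e^(i g(x)))` is zero iff `g(x) = φ_k` for some `k`; `θ_k = g⁻¹(φ_k)`.  Mean
value theorem: `φ_(k+1) - φ_k = g'(ξ) (θ_(k+1) - θ_k)`, so `h (θ_(k+1) - θ_k) = (h/g'(ξ)) (φ_(k+1) - φ_k)` with `h/g'` in
`[1/(1 + δ/2), 1/(1 - δ/2)]`, contained in `[1 - δ, 1 + δ]` (`δ ≤ 1`).  Simple zeros: the derivative of `x ↦ b(e^(ix))`
at `θ_k` is `A^r U'(e^(i φ_k)) i g'(θ_k) e^(i φ_k) ≠ 0` (the factor `A^r` contributes nothing, `U = 0` there), and it is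
`i z b'(z)`. -/
def S_GPP : Prop := ∀ (r h : ℕ) (U A : ℂ[X]) (δ : ℝ) (φ : ℤ → ℝ), 1 ≤ r → 1 ≤ h → 0 < δ → δ ≤ 1 → StrictMono φ →
  (∀ k : ℤ, φ (k + r) = φ k + 2 * Real.pi) → U.natDegree ≤ r →
  (∀ x : ℝ, U.eval (Complex.exp (x * Complex.I)) = 0 ↔ ∃ k : ℤ, x = φ k) →
  (∀ k : ℤ, U.derivative.eval (Complex.exp (φ k * Complex.I)) ≠ 0) → A.coeff 0 = 1 →
  (∀ n : ℕ, h ≤ 2 * n → A.coeff n = 0) → (∀ z : ℂ, ‖z‖ ≤ 1 → A.eval z ≠ 0) →
  (∀ z : ℂ, ‖z‖ = 1 → ‖z * A.derivative.eval z‖ ≤ δ / 4 * h * ‖A.eval z‖) →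
  ∃ θ : ℤ → ℝ, StrictMono θ ∧
    (∀ x : ℝ, (pat r h U A).eval (Complex.exp (x * Complex.I)) = 0 ↔ ∃ k : ℤ, x = θ k) ∧
    (∀ k : ℤ, (pat r h U A).derivative.eval (Complex.exp (θ k * Complex.I)) ≠ 0) ∧
    ∀ k : ℤ, |(h : ℝ) * (θ (k + 1) - θ k) - (φ (k + 1) - φ k)| ≤ δ * (φ (k + 1) - φ k)

/-- **UPH** (the pattern polynomial of a periodic sequence).  Proof.  `w_j = exp (-i φ_j)`, `|w_j| = 1`.
`∏ (1 - w_j X)`: degree `r`, constant term `1`, leading coefficient `∏ (-w_j) = ε`; the roots are the `exp (i φ_j)`,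
`0 ≤ j < r`.  Functional equation: `conj (1 - w_j/conj z)` times `z` is `z - conj w_j = - conj w_j (1 - w_j z)`, so
`z^r conj (U(1/conj z)) = ∏ (- conj w_j) U(z) = conj ε U(z)`.  Zeros on the circle: by periodicity
`{φ_k + 2πl : 0 ≤ k < r, l ∈ ℤ} = {φ_k : k ∈ ℤ}` (`φ (k + r l) = φ k + 2π l`).  The numbers `φ_0 < ... < φ_(r-1)` lie in
`[φ_0, φ_0 + 2π)` (`φ_r = φ_0 + 2π`), so the `w_j`, `0 ≤ j < r`, are different, and the roots are simple
(`U' (1/w_j) = - w_j ∏_{l ≠ j} (1 - w_l/w_j) ≠ 0`); for general `k` reduce modulo `r`.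
Mirror image: `UU r φ'` and `(UU r φ).map conj` are products over the `1 - w X`, `w` in `{exp (-i φ'_j)}` and in
`{exp (i φ_j)}`, `0 ≤ j < r`; both sets have `r` elements, and the first one is contained in the second one (`φ'_j =
- φ_k`, reduce `k` modulo `r`), so they are equal. -/
def S_UPH : Prop := ∀ (r : ℕ) (φ : ℤ → ℝ), 1 ≤ r → StrictMono φ → (∀ k : ℤ, φ (k + r) = φ k + 2 * Real.pi) →
  Uni r (∏ j ∈ range r, (-Complex.exp (-((φ (j : ℤ) : ℝ) : ℂ) * Complex.I))) (UU r φ) ∧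
  (∀ x : ℝ, (UU r φ).eval (Complex.exp (x * Complex.I)) = 0 ↔ ∃ k : ℤ, x = φ k) ∧
  (∀ k : ℤ, (UU r φ).derivative.eval (Complex.exp (φ k * Complex.I)) ≠ 0) ∧
  ∀ φ' : ℤ → ℝ, StrictMono φ' → (∀ k : ℤ, φ' (k + r) = φ' k + 2 * Real.pi) → (∀ k : ℤ, ∃ j : ℤ, φ' k = -φ j) →
    UU r φ' = (UU r φ).map (starRingEnd ℂ)

end Pool.Agent.Q284.SL
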