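import Pool.Agent.Q284.GE.Gen
import Pool.Agent.Q284.SL.Stm

/-!
# Project SL: the engine with an abstract rule for the polynomials
-/

set_option autoImplicit false

open Finset Polynomial ComplexConjugate
open Pool.Agent.H341R2.Sharp (Mon mem_Mon)

namespace Pool.Agent.Q284.SL

open Pool.Agent.Q284.PS (Prim Hay CM PD PI qq mem_PI norm_le_one)
open Pool.Agent.Q284.GE

/-- the numbers `h` (the free range is `2m < h`) -/
structure Deg (F : Type) [Field F] [Fintype F] (ι : Type) (ν M : ℕ) (h : ι → (F[X] → ℂ) → ℕ) : Prop where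
  deg : ∀ (i : ι) (Q : F[X]) (l : ℕ) (χ : F[X] → ℂ), Prim Q l χ → ν * (Q.natDegree + max M (l + 1) - 2) ≤ h i χ
  degc : ∀ (i : ι) (Q : F[X]) (l : ℕ) (χ : F[X] → ℂ), Prim Q l χ → h i (fun f => conj (χ f)) = h i χ

/-- a rule for the polynomials: `Φ i χ s` depends on the power sums `s m`, `2m < h i χ`, only -/
structure Rule (F : Type) [Field F] [Fintype F] (ι : Type) (R : ℕ) (B κ : ℝ) (ν M : ℕ)
    (h : ι → (F[X] → ℂ) → ℕ) (Φ : ι → (F[X] → ℂ) → (ℕ → ℂ) → ℂ[X]) : Prop where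
  loc : ∀ (i : ι) (χ : F[X] → ℂ) (s s' : ℕ → ℂ), (∀ m : ℕ, 1 ≤ m → 2 * m < h i χ → s m = s' m) →
    Φ i χ s = Φ i χ s'
  cj : ∀ (i : ι) (Q : F[X]) (l : ℕ) (χ : F[X] → ℂ) (s : ℕ → ℂ), Prim Q l χ →
    Φ i (fun f => conj (χ f)) (fun m => conj (s m)) = (Φ i χ s).map (starRingEnd ℂ)
  good : ∀ (i : ι) (Q : F[X]) (l : ℕ) (χ : F[X] → ℂ) (s : ℕ → ℂ), Prim Q l χ →
    (∀ m : ℕ, 1 ≤ m → 2 * m < h i χ → ‖s m‖ ≤ Lm (qq F) ν M (Q.natDegree + l) m + Rm (qq F) B κ M m) →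
    (Φ i χ s).coeff 0 = 1 ∧
    (∀ n : ℕ, 1 ≤ n → 2 * n < h i χ →
      (n : ℂ) * (Φ i χ s).coeff n = ∑ m ∈ Icc 1 n, s m * (Φ i χ s).coeff (n - m)) ∧
    ∃ s' : ℕ → ℂ, (∀ m : ℕ, 1 ≤ m → ‖s' m‖ ≤ R * h i χ) ∧ ∀ N : ℕ, Newt s' (Φ i χ s) N

/-- the stage `N` of the construction -/
structure InvS (F : Type) [Field F] [Fintype F] (ι : Type) (B κ : ℝ) (ν M : ℕ) (h : ι → (F[X] → ℂ) → ℕ)
    (Φ : ι → (F[X] → ℂ) → (ℕ → ℂ) → ℂ[X]) (p : ι → F[X] → (ι → ℝ) → ℕ → ℝ) (N : ℕ) (a : F[X] → ι → ℝ) :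
    Prop where
  small : ∀ (P : F[X]) (i : ι), P.Monic → Irreducible P → P.natDegree ≤ N → |a P i| ≤ al (qq F) ν M P.natDegree
  free : ∀ (i : ι) (Q : F[X]) (l : ℕ) (χ : F[X] → ℂ) (m : ℕ), Prim Q l χ → 1 ≤ m → m ≤ N → 2 * m < h i χ →
    ‖ps p a i χ m‖ ≤ Lm (qq F) ν M (Q.natDegree + l) m + Rm (qq F) B κ M m
  pol : ∀ (i : ι) (Q : F[X]) (l : ℕ) (χ : F[X] → ℂ), Prim Q l χ → h i χ ≤ 2 * N →
    Newt (ps p a i χ) (Φ i χ (ps p a i χ)) N

section Step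

variable {F : Type} [Field F] [Fintype F] {ι : Type}

theorem invS_congr {B κ : ℝ} {ν M R : ℕ} {h : ι → (F[X] → ℂ) → ℕ} {Φ : ι → (F[X] → ℂ) → (ℕ → ℂ) → ℂ[X]}
    (hΦ : Rule F ι R B κ ν M h Φ) {p : ι → F[X] → (ι → ℝ) → ℕ → ℝ} {N : ℕ} {a a' : F[X] → ι → ℝ}
    (haa : ∀ P : F[X], P.natDegree ≤ N → a P = a' P) (hi : InvS F ι B κ ν M h Φ p N a) :
    InvS F ι B κ ν M h Φ p N a' := by
  refine ⟨?_, ?_, ?_⟩
  · intro P i h1 h2 h3
    rw [← haa P h3]
    exact hi.small P i h1 h2 h3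
  · intro i Q l χ m h1 h2 h3 h4
    rw [← ps_congr haa i χ h2 h3]
    exact hi.free i Q l χ m h1 h2 h3 h4
  · intro i Q l χ h1 h2
    have h3 := hi.pol i Q l χ h1 h2
    have e : Φ i χ (ps p a i χ) = Φ i χ (ps p a' i χ) :=
      hΦ.loc i χ _ _ (fun m hm1 hm2 => ps_congr haa i χ hm1 (by omega))
    rw [← e]
    exact newt_congr h3 (fun m hm1 hm2 => ps_congr haa i χ hm1 hm2)

/-- numerical facts in degree `j`, real version -/
theorem num_stepR {ν M j : ℕ} {r₀ B κ : ℝ} (hPLB : S_PLB) (hnum : Num (qq F) r₀ B κ ν M) (hν : 9 ≤ ν) (hj : 1 ≤ j)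
    (hjM : ν * (M - 2) ≤ 2 * j) {c : ℝ} (hc0 : 0 ≤ c) (hc : c ≤ 4 * qq F ^ (4 * (j : ℝ) / ν + 3 - M)) :
    c * (2 * ((2 * j / ν + 1 : ℕ) : ℝ) + 2) * Real.sqrt (qq F) ^ j / j + ((2 * j / ν + 1 : ℕ) : ℝ) / j +
        (PI F j).card / 2 ≤ (PI F j).card ∧
    c * (2 * (3 * Real.sqrt (qq F) ^ j) / (PI F j).card) ≤ al (qq F) ν M j := by
  have hq2 := two_le_qq (F := F)
  have hq0 : 0 < qq F := by linarith
  have hj0 : (0 : ℝ) < j := by exact_mod_cast hj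
  have hν0 : (0 : ℝ) < ν := by exact_mod_cast (by omega : 0 < ν)
  obtain ⟨_, hP2, _⟩ := hPLB F j hj
  have hP : qq F ^ (j : ℝ) ≤ 2 * j * (PI F j).card := by
    rw [Real.rpow_natCast]
    unfold qq
    exact_mod_cast hP2
  have hqj : 0 < qq F ^ (j : ℝ) := Real.rpow_pos_of_pos hq0 _
  have hπ : 0 < ((PI F j).card : ℝ) := by
    by_contra h
    have h1 : ((PI F j).card : ℝ) ≤ 0 := not_lt.1 h
    nlinarith
  have hdiv : ((2 * j / ν : ℕ) : ℝ) ≤ 2 * j / ν := by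
    have := Nat.cast_div_le (α := ℝ) (m := 2 * j) (n := ν)
    push_cast at this
    exact this
  have hcc : ((2 * j / ν + 1 : ℕ) : ℝ) ≤ 2 * j / ν + 1 := by
    push_cast
    linarith
  rw [sqrt_pow_eq hq0]
  have e1 : qq F ^ (4 * (j : ℝ) / ν + 3 - M) * qq F ^ ((j : ℝ) / 2) =
      qq F ^ (3 - (M : ℝ) - GE.eta ν * j) * qq F ^ (j : ℝ) := by
    rw [← Real.rpow_add hq0, ← Real.rpow_add hq0]
    congr 1
    unfold GE.eta
    ring
  have hcq : c * qq F ^ ((j : ℝ) / 2) ≤ 4 * (qq F ^ (3 - (M : ℝ) - GE.eta ν * j) * qq F ^ (j : ℝ)) := by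
    rw [← e1, ← mul_assoc]
    exact mul_le_mul_of_nonneg_right hc (by positivity)
  constructor
  · have hdd := hnum.dd j hjM
    have h1 : c * (2 * ((2 * j / ν + 1 : ℕ) : ℝ) + 2) * qq F ^ ((j : ℝ) / 2) / j +
        ((2 * j / ν + 1 : ℕ) : ℝ) / j ≤ qq F ^ (j : ℝ) / (4 * j) := by
      rw [← add_div, div_le_div_iff₀ hj0 (by positivity)]
      have h2 : c * (2 * ((2 * j / ν + 1 : ℕ) : ℝ) + 2) * qq F ^ ((j : ℝ) / 2) ≤
          4 * (qq F ^ (3 - (M : ℝ) - GE.eta ν * j) * qq F ^ (j : ℝ)) * (4 * j / ν + 4) := by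
        have h3 : 2 * ((2 * j / ν + 1 : ℕ) : ℝ) + 2 ≤ 4 * j / ν + 4 := by
          have : (4 : ℝ) * j / ν = 2 * (2 * j / ν) := by ring
          rw [this]
          linarith
        calc c * (2 * ((2 * j / ν + 1 : ℕ) : ℝ) + 2) * qq F ^ ((j : ℝ) / 2) =
            (c * qq F ^ ((j : ℝ) / 2)) * (2 * ((2 * j / ν + 1 : ℕ) : ℝ) + 2) := by ring
          _ ≤ 4 * (qq F ^ (3 - (M : ℝ) - GE.eta ν * j) * qq F ^ (j : ℝ)) * (4 * j / ν + 4) :=
              mul_le_mul hcq h3 (by positivity) (by positivity)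
      have h4 : qq F ^ (-(j : ℝ)) * qq F ^ (j : ℝ) = 1 := by
        rw [← Real.rpow_add hq0]
        simp
      have h5 : (16 * qq F ^ (3 - (M : ℝ) - GE.eta ν * j) * (4 * j / ν + 4) +
          4 * (2 * j / ν + 1) * qq F ^ (-(j : ℝ))) * qq F ^ (j : ℝ) ≤ 1 * qq F ^ (j : ℝ) :=
        mul_le_mul_of_nonneg_right hdd hqj.le
      have h6 : 4 * (2 * (j : ℝ) / ν + 1) * qq F ^ (-(j : ℝ)) * qq F ^ (j : ℝ) = 4 * (2 * (j : ℝ) / ν + 1) := by
        rw [mul_assoc, h4, mul_one]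
      have h7 : (c * (2 * ((2 * j / ν + 1 : ℕ) : ℝ) + 2) * qq F ^ ((j : ℝ) / 2) +
          ((2 * j / ν + 1 : ℕ) : ℝ)) * 4 ≤ qq F ^ (j : ℝ) := by
        nlinarith
      calc (c * (2 * ((2 * j / ν + 1 : ℕ) : ℝ) + 2) * qq F ^ ((j : ℝ) / 2) +
          ((2 * j / ν + 1 : ℕ) : ℝ)) * (4 * j) = ((c * (2 * ((2 * j / ν + 1 : ℕ) : ℝ) + 2) *
          qq F ^ ((j : ℝ) / 2) + ((2 * j / ν + 1 : ℕ) : ℝ)) * 4) * j := by ring
        _ ≤ qq F ^ (j : ℝ) * j := mul_le_mul_of_nonneg_right h7 hj0.le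
    have h8 : qq F ^ (j : ℝ) / (4 * j) ≤ (PI F j).card / 2 := by
      rw [div_le_div_iff₀ (by positivity) (by norm_num)]
      linarith
    linarith
  · unfold al
    rw [if_pos hjM, mul_div_assoc', div_le_iff₀ hπ]
    calc c * (2 * (3 * qq F ^ ((j : ℝ) / 2))) = 6 * (c * qq F ^ ((j : ℝ) / 2)) := by ring
      _ ≤ 6 * (4 * (qq F ^ (3 - (M : ℝ) - GE.eta ν * j) * qq F ^ (j : ℝ))) := by linarith
      _ = 24 * qq F ^ (3 - (M : ℝ) - GE.eta ν * j) * qq F ^ (j : ℝ) := by ring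
      _ ≤ 24 * qq F ^ (3 - (M : ℝ) - GE.eta ν * j) * (2 * j * (PI F j).card) :=
          mul_le_mul_of_nonneg_left hP (by positivity)
      _ = 48 * j * qq F ^ (3 - (M : ℝ) - GE.eta ν * j) * (PI F j).card := by ring

/-- the values which are forced in degree `j = N + 1`, and the solution of the linear equations, for one index.  Here
`M'` is the number with which the degrees grow, `M = M' - R`. -/
theorem step_oneS (hPLB : S_PLB) (hGSL : S_GSL) (hCN : S_CN2) (hRPW : S_RPW)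
    {r₀ B ϑ : ℝ} {K : ℕ} (hpar : Par r₀ B ϑ K) {p : ι → F[X] → (ι → ℝ) → ℕ → ℝ}
    (hloc : Loc F ι r₀ B ϑ K p) {ν M M' R : ℕ} (hR : 2 ≤ R) (hMM : M' = M + R) (hν : 9 ≤ ν) (hM : 3 ≤ M)
    (hnum : Num (qq F) r₀ B (kap ϑ K) ν M) {h : ι → (F[X] → ℂ) → ℕ} (hdeg : Deg F ι ν M' h)
    {Φ : ι → (F[X] → ℂ) → (ℕ → ℂ) → ℂ[X]} (hΦ : Rule F ι R B (kap ϑ K) ν M h Φ) {N : ℕ} {a : F[X] → ι → ℝ}
    (hinv : InvS F ι B (kap ϑ K) ν M h Φ p N a) (i : ι) :
    ∃ x : F[X] → ℝ, (∀ P, |x P| ≤ al (qq F) ν M (N + 1)) ∧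
      (∀ (Q : F[X]) (l : ℕ) (χ : F[X] → ℂ), Prim Q l χ → 2 * (N + 1) < h i χ →
        ‖((N + 1 : ℕ) : ℂ) * ∑ P ∈ PI F (N + 1), (x P : ℂ) * χ P‖ ≤
          Lm (qq F) ν M (Q.natDegree + l) (N + 1) * Real.sqrt (qq F) ^ (N + 1)) ∧
      ∀ (Q : F[X]) (l : ℕ) (χ : F[X] → ℂ), Prim Q l χ → h i χ ≤ 2 * (N + 1) →
        ∃ s : ℕ → ℂ, Newt s (Φ i χ (ps p a i χ)) (N + 1) ∧ (∀ m : ℕ, 1 ≤ m → m ≤ N → s m = ps p a i χ m) ∧
            ((N + 1 : ℕ) : ℂ) * ∑ P ∈ PI F (N + 1), (x P : ℂ) * χ P + pw p a i χ (N + 1) =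
              s (N + 1) * (Real.sqrt (qq F) : ℂ) ^ (N + 1) := by
  classical
  have hq2 := two_le_qq (F := F)
  have hq0 : 0 < qq F := by linarith
  have hsq : 0 < Real.sqrt (qq F) := Real.sqrt_pos.2 hq0
  set j : ℕ := N + 1 with hjd
  have hj1 : 1 ≤ j := by omega
  have hjR : (0 : ℝ) < j := by exact_mod_cast hj1
  have hRR : (0 : ℝ) < R := by exact_mod_cast (by omega : 0 < R)
  have hDM' : ∀ (Q : F[X]) (l : ℕ) (χ : F[X] → ℂ), Prim Q l χ → ν * (M' - 2) ≤ h i χ := by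
    intro Q l χ hχ
    refine le_trans (Nat.mul_le_mul_left ν ?_) (hdeg.deg i Q l χ hχ)
    have := le_max_left M' (l + 1)
    omega
  -- the data of a character which is complete in degree `j`
  have hA : ∀ (Q : F[X]) (l : ℕ) (χ : F[X] → ℂ), Prim Q l χ → h i χ ≤ 2 * j →
      (Φ i χ (ps p a i χ)).coeff 0 = 1 ∧ Newt (ps p a i χ) (Φ i χ (ps p a i χ)) N ∧
      ∃ s' : ℕ → ℂ, (∀ m : ℕ, 1 ≤ m → ‖s' m‖ ≤ R * h i χ) ∧ ∀ N : ℕ, Newt s' (Φ i χ (ps p a i χ)) N := by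
    intro Q l χ hχ hD
    obtain ⟨h1, h2, h3⟩ := hΦ.good i Q l χ (ps p a i χ) hχ (by
      intro m hm1 hm2
      exact hinv.free i Q l χ m hχ hm1 (by omega) hm2)
    refine ⟨h1, ?_, h3⟩
    rcases le_or_gt (h i χ) (2 * N) with h4 | h4
    · exact hinv.pol i Q l χ hχ h4
    · exact fun n hn1 hn2 => h2 n hn1 (by omega)
  rcases lt_or_ge (2 * j) (ν * (M - 2)) with hlt | hjM
  · -- no character is complete
    refine ⟨fun _ => 0, ?_, ?_, ?_⟩
    · intro P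
      rw [abs_zero]
      unfold al
      rw [if_neg (not_le.2 hlt)]
    · intro Q l χ hχ hD
      simp only [Complex.ofReal_zero, zero_mul, sum_const_zero, mul_zero, norm_zero]
      have : 0 ≤ Lm (qq F) ν M (Q.natDegree + l) j := by
        unfold Lm
        positivity
      positivity
    · intro Q l χ hχ hD
      have h1 := hDM' Q l χ hχ
      have h2 : ν * (M - 2) ≤ ν * (M' - 2) := Nat.mul_le_mul_left ν (by omega)
      omega
  · -- the set of the complete characters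
    obtain ⟨hfin, hcard⟩ := hCN F ν M' j (by omega) (by omega)
    have hfinC : {χ : F[X] → ℂ | ∃ (Q : F[X]) (l : ℕ), Prim Q l χ ∧ h i χ ≤ 2 * j}.Finite := by
      apply hfin.subset
      rintro χ ⟨Q, l, h1, h2⟩
      exact ⟨Q, l, h1, (hdeg.deg i Q l χ h1).trans h2⟩
    set C : Finset (F[X] → ℂ) := hfinC.toFinset with hCd
    have hmemC : ∀ χ, χ ∈ C ↔ ∃ (Q : F[X]) (l : ℕ), Prim Q l χ ∧ h i χ ≤ 2 * j := by
      intro χ
      rw [hCd, Set.Finite.mem_toFinset]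
      rfl
    have hcC : (C.card : ℝ) ≤ 4 * qq F ^ (4 * (j : ℝ) / ν + 3 - M') := by
      refine le_trans ?_ hcard
      have : C.card ≤ hfin.toFinset.card := by
        apply card_le_card
        intro χ hχ
        rw [Set.Finite.mem_toFinset]
        obtain ⟨Q, l, h1, h2⟩ := (hmemC χ).1 hχ
        exact ⟨Q, l, h1, (hdeg.deg i Q l χ h1).trans h2⟩
      rw [Set.ncard_eq_toFinset_card _ hfin]
      exact_mod_cast this
    -- the factor `(2R + 1) / 3` is absorbed by `q ^ R`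
    have hcC2 : (C.card : ℝ) * ((2 * (R : ℝ) + 1) / 3) ≤ 4 * qq F ^ (4 * (j : ℝ) / ν + 3 - M) := by
      have h1 : (2 * (R : ℝ) + 1) / 3 ≤ qq F ^ (R : ℝ) := by
        rw [Real.rpow_natCast]
        have h2 : (2 : ℝ) ^ R ≤ qq F ^ R := pow_le_pow_left₀ (by norm_num) hq2 R
        have h3 : ((R : ℝ) + 1) ≤ 2 ^ R := by
          have := Nat.lt_two_pow_self (n := R)
          exact_mod_cast this
        linarith
      have e : 4 * qq F ^ (4 * (j : ℝ) / ν + 3 - M) = 4 * qq F ^ (4 * (j : ℝ) / ν + 3 - M') * qq F ^ (R : ℝ) := by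
        rw [mul_assoc, ← Real.rpow_add hq0]
        congr 2
        rw [hMM]
        push_cast
        ring
      rw [e]
      exact mul_le_mul hcC h1 (by positivity) (by positivity)
    have hcC1 : (C.card : ℝ) ≤ 4 * qq F ^ (4 * (j : ℝ) / ν + 3 - M) := by
      refine hcC.trans ?_
      apply mul_le_mul_of_nonneg_left _ (by norm_num)
      apply Real.rpow_le_rpow_of_exponent_le (by linarith)
      rw [hMM]
      push_cast
      linarith
    obtain ⟨hgs, _⟩ := num_stepR hPLB hnum hν hj1 hjM (Nat.cast_nonneg C.card) hcC1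
    obtain ⟨_, hal'⟩ := num_stepR hPLB hnum hν hj1 hjM (c := (C.card : ℝ) * ((2 * (R : ℝ) + 1) / 3)) (by positivity) hcC2
    have hal : (C.card : ℝ) * (2 * ((2 * (R : ℝ) + 1) * Real.sqrt (qq F) ^ j) / (PI F j).card) ≤ al (qq F) ν M j := by
      refine le_trans (le_of_eq ?_) hal'
      ring
    -- the forced values
    have hB : ∀ χ : F[X] → ℂ, ∃ (s : ℕ → ℂ), χ ∈ C → (Φ i χ (ps p a i χ)).coeff 0 = 1 ∧
        Newt (ps p a i χ) (Φ i χ (ps p a i χ)) N ∧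
        (∀ m : ℕ, 1 ≤ m → ‖s m‖ ≤ R * h i χ) ∧ ∀ N, Newt s (Φ i χ (ps p a i χ)) N := by
      intro χ
      by_cases hc : χ ∈ C
      · obtain ⟨Q, l, h1, h2⟩ := (hmemC χ).1 hc
        obtain ⟨h3, h4, s, h6, h7⟩ := hA Q l χ h1 h2
        exact ⟨s, fun _ => ⟨h3, h4, h6, h7⟩⟩
      · exact ⟨0, fun h' => absurd h' hc⟩
    choose s hbs using hB
    have hconjC : ∀ χ ∈ C, (fun f => conj (χ f)) ∈ C := by
      intro χ hχ
      obtain ⟨Q, l, h1, h2⟩ := (hmemC χ).1 hχ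
      exact (hmemC _).2 ⟨Q, l, prim_conj h1, by rw [hdeg.degc i Q l χ h1]; exact h2⟩
    have hsconj : ∀ χ ∈ C, s (fun f => conj (χ f)) j = conj (s χ j) := by
      intro χ hχ
      obtain ⟨Q, l, h1, h2⟩ := (hmemC χ).1 hχ
      obtain ⟨u1, u3, u4, u5⟩ := hbs χ hχ
      obtain ⟨w1, w3, w4, w5⟩ := hbs _ (hconjC χ hχ)
      have e : Φ i (fun f => conj (χ f)) (ps p a i (fun f => conj (χ f))) =
          (Φ i χ (ps p a i χ)).map (starRingEnd ℂ) := by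
        rw [← hΦ.cj i Q l χ (ps p a i χ) h1]
        apply hΦ.loc
        intro m _ _
        rw [ps_conj]
      have u5' := newt_conj (u5 j)
      rw [← e] at u5'
      exact newt_unique w1 (w5 j) u5' j hj1 le_rfl
    set t : (F[X] → ℂ) → ℂ := fun χ =>
      (s χ j * (Real.sqrt (qq F) : ℂ) ^ j - pw p a i χ j) / (j : ℂ) with htd
    have hpw : ∀ χ : F[X] → ℂ, (∀ f, ‖χ f‖ ≤ 1) →
        ‖pw p a i χ j‖ ≤ Rm (qq F) B (kap ϑ K) M j * Real.sqrt (qq F) ^ j := by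
      intro χ hχ
      refine hRPW r₀ B ϑ K hpar F ι p hloc ν M hν hM ?_ a j hj1 ?_ i χ hχ
      · intro j' hj'
        exact al_le hq2 hpar.r0 hν hnum hj'
      · intro P i' h1 h2 h3
        exact hinv.small P i' h1 h2 (by omega)
    have ht : ∀ χ ∈ C, ‖t χ‖ ≤ (2 * (R : ℝ) + 1) * Real.sqrt (qq F) ^ j ∧ t (fun f => conj (χ f)) = conj (t χ) := by
      intro χ hχ
      obtain ⟨Q, l, h1, h2⟩ := (hmemC χ).1 hχ
      obtain ⟨u1, u3, u4, u5⟩ := hbs χ hχ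
      have hjc : (j : ℂ) ≠ 0 := by exact_mod_cast hjR.ne'
      constructor
      · rw [htd]
        show ‖(s χ j * (Real.sqrt (qq F) : ℂ) ^ j - pw p a i χ j) / (j : ℂ)‖ ≤ _
        rw [norm_div, Complex.norm_natCast, div_le_iff₀ hjR]
        refine (norm_sub_le _ _).trans ?_
        have h3 : ‖s χ j * (Real.sqrt (qq F) : ℂ) ^ j‖ ≤ R * (2 * j) * Real.sqrt (qq F) ^ j := by
          rw [norm_mul, norm_pow, Complex.norm_real, Real.norm_eq_abs, abs_of_pos hsq]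
          apply mul_le_mul_of_nonneg_right _ (by positivity)
          refine (u4 j hj1).trans ?_
          apply mul_le_mul_of_nonneg_left _ hRR.le
          exact_mod_cast h2
        have h4 := hpw χ (norm_le_one h1.1)
        have h5 := hnum.pp j hjM
        have h6 : Rm (qq F) B (kap ϑ K) M j * Real.sqrt (qq F) ^ j ≤ j * Real.sqrt (qq F) ^ j :=
          mul_le_mul_of_nonneg_right h5 (by positivity)
        nlinarith
      · rw [htd]
        show (s (fun f => conj (χ f)) j * (Real.sqrt (qq F) : ℂ) ^ j - pw p a i (fun f => conj (χ f)) j) / (j : ℂ) =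
          conj ((s χ j * (Real.sqrt (qq F) : ℂ) ^ j - pw p a i χ j) / (j : ℂ))
        rw [hsconj χ hχ, pw_conj, map_div₀, map_sub, map_mul, map_pow, Complex.conj_ofReal, map_natCast]
    obtain ⟨x, hx1, hx2, hx3⟩ := hGSL F j (2 * j / ν + 1) C ((2 * (R : ℝ) + 1) * Real.sqrt (qq F) ^ j) t hj1 (by
        intro χ hχ
        obtain ⟨Q, l, h1, h2⟩ := (hmemC χ).1 hχ
        refine ⟨Q, l, h1, ?_⟩
        have h3 := hdeg.deg i Q l χ h1
        have h4 : Q.natDegree + max M' (l + 1) - 2 ≤ 2 * j / ν := by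
          rw [Nat.le_div_iff_mul_le (by omega), mul_comm]
          exact h3.trans h2
        have := le_max_right M' (l + 1)
        omega) hconjC hgs ht
    refine ⟨x, fun P => (hx2 P).trans hal, ?_, ?_⟩
    · intro Q l χ hχ hD
      have hnot : χ ∉ C := by
        intro hc
        obtain ⟨_, _, _, h2⟩ := (hmemC χ).1 hc
        omega
      have h1 := hx3 Q l χ hχ hnot
      rw [norm_mul, Complex.norm_natCast]
      have hdiv : ((2 * j / ν : ℕ) : ℝ) ≤ 2 * j / ν := by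
        have := Nat.cast_div_le (α := ℝ) (m := 2 * j) (n := ν)
        push_cast at this
        exact this
      have h2 : (C.card : ℝ) * (2 * ((2 * (R : ℝ) + 1) * Real.sqrt (qq F) ^ j) / (PI F j).card) *
          (Q.natDegree + l + ((2 * j / ν + 1 : ℕ) : ℝ) + 2) * Real.sqrt (qq F) ^ j ≤
          Lm (qq F) ν M (Q.natDegree + l) j * Real.sqrt (qq F) ^ j := by
        apply mul_le_mul_of_nonneg_right _ (by positivity)
        have h3 : Lm (qq F) ν M (Q.natDegree + l) j =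
            al (qq F) ν M j * ((Q.natDegree : ℝ) + l + 2 * j / ν + 3) := by
          unfold Lm al
          rw [if_pos hjM]
          push_cast
          ring
        rw [h3]
        apply mul_le_mul hal _ (by positivity)
        · unfold al
          rw [if_pos hjM]
          positivity
        · push_cast
          linarith
      calc (j : ℝ) * ‖∑ P ∈ PI F j, (x P : ℂ) * χ P‖ ≤ j * (C.card *
            (2 * ((2 * (R : ℝ) + 1) * Real.sqrt (qq F) ^ j) / (PI F j).card) *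
            (Q.natDegree + l + ((2 * j / ν + 1 : ℕ) : ℝ) + 2) * Real.sqrt (qq F) ^ j / j) :=
            mul_le_mul_of_nonneg_left h1 hjR.le
        _ = C.card * (2 * ((2 * (R : ℝ) + 1) * Real.sqrt (qq F) ^ j) / (PI F j).card) *
            (Q.natDegree + l + ((2 * j / ν + 1 : ℕ) : ℝ) + 2) * Real.sqrt (qq F) ^ j := by
            rw [mul_div_self' hjR.ne']
        _ ≤ _ := h2
    · intro Q l χ hχ hD
      have hχC : χ ∈ C := (hmemC χ).2 ⟨Q, l, hχ, hD⟩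
      obtain ⟨u1, u3, u4, u5⟩ := hbs χ hχC
      refine ⟨s χ, u5 j, ?_, ?_⟩
      · intro m hm1 hm2
        exact newt_unique u1 (u5 N) u3 m hm1 hm2
      · rw [hx1 χ hχC, htd]
        have hjc : (j : ℂ) ≠ 0 := by exact_mod_cast hjR.ne'
        show (j : ℂ) * ((s χ j * (Real.sqrt (qq F) : ℂ) ^ j - pw p a i χ j) / (j : ℂ)) + pw p a i χ j = _
        rw [mul_div_self' hjc]
        ring

theorem stepS (hPLB : S_PLB) (hGSL : S_GSL) (hCN : S_CN2) (hRPW : S_RPW)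
    {r₀ B ϑ : ℝ} {K : ℕ} (hpar : Par r₀ B ϑ K) {p : ι → F[X] → (ι → ℝ) → ℕ → ℝ}
    (hloc : Loc F ι r₀ B ϑ K p) {ν M M' R : ℕ} (hR : 2 ≤ R) (hMM : M' = M + R) (hν : 9 ≤ ν) (hM : 3 ≤ M)
    (hnum : Num (qq F) r₀ B (kap ϑ K) ν M) {h : ι → (F[X] → ℂ) → ℕ} (hdeg : Deg F ι ν M' h)
    {Φ : ι → (F[X] → ℂ) → (ℕ → ℂ) → ℂ[X]} (hΦ : Rule F ι R B (kap ϑ K) ν M h Φ) {N : ℕ} {a : F[X] → ι → ℝ}
    (hinv : InvS F ι B (kap ϑ K) ν M h Φ p N a) :
    ∃ a' : F[X] → ι → ℝ, (∀ P : F[X], P.natDegree ≤ N → a P = a' P) ∧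
      InvS F ι B (kap ϑ K) ν M h Φ p (N + 1) a' := by
  classical
  have hq2 := two_le_qq (F := F)
  have hq0 : 0 < qq F := by linarith
  have hsq : 0 < Real.sqrt (qq F) := Real.sqrt_pos.2 hq0
  have hsqc : (Real.sqrt (qq F) : ℂ) ^ (N + 1) ≠ 0 := by
    apply pow_ne_zero
    exact_mod_cast hsq.ne'
  choose x hx1 hx2 hx3 using fun i => step_oneS hPLB hGSL hCN hRPW hpar hloc hR hMM hν hM hnum hdeg hΦ hinv i
  let a' : F[X] → ι → ℝ := fun P i => if P.natDegree = N + 1 then x i P else a P i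
  have hlow : ∀ P : F[X], P.natDegree ≤ N → a P = a' P := by
    intro P hP
    funext i
    show a P i = if P.natDegree = N + 1 then x i P else a P i
    rw [if_neg (by omega)]
  have htop : ∀ P : F[X], P.natDegree = N + 1 → ∀ i, a' P i = x i P := by
    intro P hP i
    show (if P.natDegree = N + 1 then x i P else a P i) = x i P
    rw [if_pos hP]
  have hall : ∀ j : ℕ, 1 ≤ j → al (qq F) ν M j ≤ r₀ := fun j hj => al_le hq2 hpar.r0 hν hnum hj
  have hone : ∀ i : ι, ∀ P ∈ PI F (N + 1), p i P (a' P) 1 = a' P i := by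
    intro i P hP
    rw [mem_PI] at hP
    apply hloc.one i P (a' P) hP.1 hP.2.2
    intro i'
    rw [htop P hP.2.1 i']
    exact (hx1 i' P).trans (hall _ (by omega))
  have hsum : ∀ (i : ι) (χ : F[X] → ℂ), ∑ P ∈ PI F (N + 1), (a' P i : ℂ) * χ P =
      ∑ P ∈ PI F (N + 1), (x i P : ℂ) * χ P := by
    intro i χ
    apply sum_congr rfl
    intro P hP
    rw [htop P (mem_PI.1 hP).2.1 i]
  have hpw : ∀ (i : ι) (χ : F[X] → ℂ), pw p a i χ (N + 1) = pw p a' i χ (N + 1) := fun i χ =>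
    pw_congr (fun P hP => hlow P (by omega)) i χ
  have hsplit : ∀ (i : ι) (χ : F[X] → ℂ), ps p a' i χ (N + 1) * (Real.sqrt (qq F) : ℂ) ^ (N + 1) =
      ((N + 1 : ℕ) : ℂ) * ∑ P ∈ PI F (N + 1), (x i P : ℂ) * χ P + pw p a i χ (N + 1) := by
    intro i χ
    rw [ps_split (by omega) (hone i), hsum, hpw]
  refine ⟨a', hlow, ?_, ?_, ?_⟩
  · intro P i h1 h2 h3
    rcases Nat.lt_or_ge N P.natDegree with h4 | h4
    · have h5 : P.natDegree = N + 1 := by omega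
      rw [htop P h5 i, h5]
      exact hx1 i P
    · rw [← hlow P h4]
      exact hinv.small P i h1 h2 h4
  · intro i Q l χ m h1 h2 h3 h4
    rcases Nat.lt_or_ge N m with h5 | h5
    · have h6 : m = N + 1 := by omega
      subst h6
      have h7 : ‖ps p a' i χ (N + 1)‖ * Real.sqrt (qq F) ^ (N + 1) ≤
          (Lm (qq F) ν M (Q.natDegree + l) (N + 1) + Rm (qq F) B (kap ϑ K) M (N + 1)) *
            Real.sqrt (qq F) ^ (N + 1) := by
        have h8 : ‖ps p a' i χ (N + 1) * (Real.sqrt (qq F) : ℂ) ^ (N + 1)‖ =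
            ‖ps p a' i χ (N + 1)‖ * Real.sqrt (qq F) ^ (N + 1) := by
          rw [norm_mul, norm_pow, Complex.norm_real, Real.norm_eq_abs, abs_of_pos hsq]
        rw [← h8, hsplit]
        refine (norm_add_le _ _).trans ?_
        have h9 := hx2 i Q l χ h1 h4
        have h10 := hRPW r₀ B ϑ K hpar F ι p hloc ν M hν hM hall a (N + 1) (by omega)
          (fun P i' k1 k2 k3 => hinv.small P i' k1 k2 (by omega)) i χ (norm_le_one h1.1)
        rw [add_mul]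
        exact add_le_add h9 h10
      exact le_of_mul_le_mul_right h7 (by positivity)
    · rw [← ps_congr hlow i χ h2 h5]
      exact hinv.free i Q l χ m h1 h2 h5 h4
  · intro i Q l χ h1 h2
    obtain ⟨s, h5, h6, h7⟩ := hx3 i Q l χ h1 h2
    have e : Φ i χ (ps p a i χ) = Φ i χ (ps p a' i χ) := by
      apply hΦ.loc
      intro m hm1 hm2
      rcases Nat.lt_or_ge N m with h8 | h8
      · omega
      · exact ps_congr hlow i χ hm1 h8
    rw [← e]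
    refine newt_congr h5 ?_
    intro m hm1 hm2
    rcases Nat.lt_or_ge N m with h8 | h8
    · have h9 : m = N + 1 := by omega
      subst h9
      apply mul_right_cancel₀ hsqc
      rw [← h7, hsplit]
    · rw [h6 m hm1 h8, ps_congr hlow i χ hm1 h8]

end Step

/-- the engine: all the twisted `L`-polynomials are given by the rule `Φ` -/
def GENS : Prop := ∀ (r₀ B ϑ : ℝ) (K : ℕ), Par r₀ B ϑ K → ∀ R : ℕ, 2 ≤ R → ∃ M₀ : ℕ, 3 ≤ M₀ ∧
  ∀ (F : Type) [Field F] [Fintype F] (ι : Type) (p : ι → F[X] → (ι → ℝ) → ℕ → ℝ), Loc F ι r₀ B ϑ K p →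
  ∀ (ν M : ℕ), 9 ≤ ν → M₀ ≤ M → ∀ (h : ι → (F[X] → ℂ) → ℕ), Deg F ι ν (M + R) h →
  ∀ Φ : ι → (F[X] → ℂ) → (ℕ → ℂ) → ℂ[X], Rule F ι R B (kap ϑ K) ν M h Φ →
  ∃ a : F[X] → ι → ℝ, (∀ (P : F[X]) (i : ι), P.Monic → Irreducible P →
      |a P i| ≤ r₀ ∧ |a P i| ≤ r₀ * qq F ^ (-(9 / 10 * GE.eta ν * P.natDegree))) ∧
    ∀ (i : ι) (Q : F[X]) (l : ℕ) (χ : F[X] → ℂ), Prim Q l χ →
      (∀ m : ℕ, 1 ≤ m → 2 * m < h i χ →
        ‖ps p a i χ m‖ ≤ Lm (qq F) ν M (Q.natDegree + l) m + Rm (qq F) B (kap ϑ K) M m) ∧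
      ∀ N : ℕ, Newt (ps p a i χ) (Φ i χ (ps p a i χ)) N

theorem kap_pos {r₀ B ϑ : ℝ} {K : ℕ} (hpar : Par r₀ B ϑ K) : 0 < kap ϑ K := by
  unfold kap
  apply lt_min (by norm_num)
  have hK0 : (0 : ℝ) < K := by exact_mod_cast (by have := hpar.K3; omega : 0 < K)
  have h1 := hpar.K1
  have h2 : 1 / (K : ℝ) < 1 / 2 - ϑ := by
    rw [div_lt_iff₀ hK0]
    linarith
  linarith

theorem t_gens (hPLB : S_PLB) (hGSL : S_GSL) (hCN : S_CN2) (hRPW : S_RPW) (hNUM : S_NUM) : GENS := by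
  classical
  intro r₀ B ϑ K hpar R hR
  have hκ := kap_pos hpar
  obtain ⟨M₀, hM3, hNUM⟩ := hNUM r₀ B (kap ϑ K) hpar.r0 hpar.B0 hκ (min_le_left _ _)
  refine ⟨M₀, hM3, ?_⟩
  intro F _ _ ι p hloc ν M hν hM h hdeg Φ hΦ
  have hq2 := two_le_qq (F := F)
  have hM3' : 3 ≤ M := by omega
  have hnum := hNUM M hM (qq F) ν hq2 hν
  have hpos : ∀ (i : ι) (Q : F[X]) (l : ℕ) (χ : F[X] → ℂ), Prim Q l χ → 1 ≤ h i χ := by
    intro i Q l χ hχ
    refine le_trans ?_ (hdeg.deg i Q l χ hχ)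
    have h1 := le_max_left (M + R) (l + 1)
    have : 9 * 1 ≤ ν * (Q.natDegree + max (M + R) (l + 1) - 2) := Nat.mul_le_mul hν (by omega)
    omega
  -- the beginning
  have h0 : InvS F ι B (kap ϑ K) ν M h Φ p 0 (fun _ _ => 0) := by
    refine ⟨?_, ?_, ?_⟩
    · intro P i h1 h2 h3
      have := h2.natDegree_pos
      omega
    · intro i Q l χ m h1 h2 h3
      omega
    · intro i Q l χ h1 h2
      have := hpos i Q l χ h1
      omega
  -- the sequence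
  let T : ℕ → Type := fun N => {a : F[X] → ι → ℝ // InvS F ι B (kap ϑ K) ν M h Φ p N a}
  have hstep : ∀ (N : ℕ) (a : T N), ∃ a' : T (N + 1), ∀ P : F[X], P.natDegree ≤ N → a.1 P = a'.1 P := by
    intro N a
    obtain ⟨a', h1, h2⟩ := stepS hPLB hGSL hCN hRPW hpar hloc hR rfl hν hM3' hnum hdeg hΦ a.2
    exact ⟨⟨a', h2⟩, h1⟩
  choose nxt hnxt using hstep
  let A : (N : ℕ) → T N := fun N => Nat.rec (motive := T) ⟨fun _ _ => 0, h0⟩ (fun N a => nxt N a) N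
  have hA : ∀ N : ℕ, ∀ P : F[X], P.natDegree ≤ N → (A N).1 P = (A (N + 1)).1 P := fun N P hP => hnxt N (A N) P hP
  have hA2 : ∀ (N k : ℕ) (P : F[X]), P.natDegree ≤ N → (A N).1 P = (A (N + k)).1 P := by
    intro N k P hP
    induction k with
    | zero => rfl
    | succ k ih => rw [ih, ← Nat.add_assoc]; exact hA (N + k) P (by omega)
  let a : F[X] → ι → ℝ := fun P => (A P.natDegree).1 P
  have ha : ∀ (N : ℕ) (P : F[X]), P.natDegree ≤ N → (A N).1 P = a P := by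
    intro N P hP
    have := hA2 P.natDegree (N - P.natDegree) P le_rfl
    rw [Nat.add_sub_cancel' hP] at this
    exact this.symm
  have hinv : ∀ N : ℕ, InvS F ι B (kap ϑ K) ν M h Φ p N a := fun N =>
    invS_congr hΦ (fun P hP => ha N P hP) (A N).2
  refine ⟨a, ?_, ?_⟩
  · intro P i h1 h2
    have h3 := (hinv P.natDegree).small P i h1 h2 le_rfl
    have h4 : 1 ≤ P.natDegree := h2.natDegree_pos
    exact ⟨h3.trans (al_le hq2 hpar.r0 hν hnum h4), h3.trans (hnum.sm _ h4)⟩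
  · intro i Q l χ hχ
    refine ⟨?_, ?_⟩
    · intro m hm1 hm2
      exact (hinv m).free i Q l χ m hχ hm1 le_rfl hm2
    · intro N
      exact fun n hn1 hn2 => (hinv (N + h i χ)).pol i Q l χ hχ (by omega) n hn1 (by omega)

end Pool.Agent.Q284.SL
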